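import Pool.Agent.H21.Tri.Main

set_option autoImplicit false

/-!
# From packings of lists to admissible numbers
-/

namespace Pool.Agent.H21.Tri

open Pool.Agent.H90.Clone Complex Set Pointwise MeasureTheory

variable {u v : ℂ}

/-- the isometry `z ↦ s • h (s⁻¹ • z)` -/
noncomputable def scaleIso (s : ℝ) (hs : s ≠ 0) (h : ℂ ≃ᵢ ℂ) : ℂ ≃ᵢ ℂ where
  toFun z := s • h (s⁻¹ • z)
  invFun z := s • h.symm (s⁻¹ • z)
  left_inv z := by simp [hs]
  right_inv z := by simp [hs]
  isometry_toFun := by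
    apply Isometry.of_dist_eq
    intro a b
    rw [dist_smul₀, h.isometry.dist_eq, dist_smul₀, ← mul_assoc, norm_inv,
      mul_inv_cancel₀ (norm_ne_zero_iff.mpr hs), one_mul]

lemma scaleIso_apply (s : ℝ) (hs : s ≠ 0) (h : ℂ ≃ᵢ ℂ) (z : ℂ) :
    scaleIso s hs h z = s • h (s⁻¹ • z) := rfl

/-- the placement function from a packed list -/
lemma assign {n : ℕ} {T Q : Set ℂ} (c : Fin n → ℝ) (l : List (Fin n))
    (hl : ∀ i, i ∈ l) (h : Pack T Q (l.map c)) :
    ∃ S : Fin n → Set ℂ, (∀ i, IsCopy T (c i) (S i)) ∧ (∀ i, S i ⊆ Q) ∧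
      ∀ i j, i ≠ j → SepSets (S i) (S j) := by
  classical
  obtain ⟨A, a1, a2, a3⟩ := h
  have hlen : A.length = l.length := by
    have := a1.length_eq
    rw [List.length_map] at this
    exact this.symm
  have hidx : ∀ i, l.idxOf i < l.length := fun i => List.idxOf_lt_length_iff.mpr (hl i)
  have hidxA : ∀ i, l.idxOf i < A.length := fun i => by rw [hlen]; exact hidx i
  refine ⟨fun i => A[l.idxOf i]'(hidxA i), ?_, ?_, ?_⟩
  · intro i
    have h1 := a1.get (i := l.idxOf i) (by rw [List.length_map]; exact hidx i) (hidxA i)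
    simpa using h1
  · intro i
    exact a2 _ (List.getElem_mem _)
  · intro i j hij
    have hne : l.idxOf i ≠ l.idxOf j := by
      intro he
      apply hij
      have h1 : l[l.idxOf i]'(hidx i) = i := List.getElem_idxOf (hidx i)
      have h2 : l[l.idxOf j]'(hidx j) = j := List.getElem_idxOf (hidx j)
      rw [← h1, ← h2]
      simp only [he]
    rw [List.pairwise_iff_getElem] at a3
    rcases lt_or_gt_of_ne hne with h | h
    · exact a3 _ _ (hidxA i) (hidxA j) h
    · exact (a3 _ _ (hidxA j) (hidxA i) h).symm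

theorem admissible_of_pack (hd : det u v ≠ 0) {θ : ℝ} (hθ : 0 < θ)
    (H : ∀ L : List ℝ, L.Pairwise (fun a b => b ≤ a) → (∀ c ∈ L, 0 < c) → sqs L ≤ θ →
      Pack (Tri 0 u v) (Tri 0 u v) L) {F : Set ℂ} (hF : IsConvexFigure F) {o o' : ℂ} {ε : ℝ}
    (hε : 0 ≤ ε) (hin : Tri o u v ⊆ F)
    (hout : F ⊆ Tri o' (((1 + ε : ℝ) : ℂ) * u) (((1 + ε : ℝ) : ℂ) * v)) :
    Admissible F ((1 + ε) ^ 2 / θ) := by
  have hAF := area_pos hF
  set σ := (1 + ε) ^ 2 / θ with hσ
  have hσ0 : 0 < σ := by positivity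
  intro n G hG hsum
  choose c g hc hg using hG
  set s := Real.sqrt (σ / area F) with hs
  have hs0 : 0 < s := Real.sqrt_pos.mpr (by positivity)
  have hs2 : s ^ 2 = σ / area F := Real.sq_sqrt (by positivity)
  have hsum' : (∑ i, c i ^ 2) * area F = 1 := by
    rw [← hsum, Finset.sum_mul]
    apply Finset.sum_congr rfl
    intro i _
    rw [hg i, area_clone]
  set c' : Fin n → ℝ := fun i => (1 + ε) * c i / s with hc'
  have hc'0 : ∀ i, 0 < c' i := fun i => by
    have := hc i
    positivity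
  obtain ⟨l, _, hl, hpw, hsq⟩ := sorted_list c'
  have hP : Pack (Tri 0 u v) (Tri 0 u v) (l.map c') := by
    apply H
    · rw [List.pairwise_map]
      exact hpw
    · intro x hx
      obtain ⟨i, _, rfl⟩ := List.mem_map.mp hx
      exact hc'0 i
    · have e0 : sqs (l.map c') = sq c' l := by
        rw [sqs, List.map_map]
        rfl
      rw [e0, hsq]
      have e1 : ∀ i, c' i ^ 2 = ((1 + ε) ^ 2 / s ^ 2) * c i ^ 2 := by
        intro i
        rw [hc', div_pow, mul_pow]
        ring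
      simp only [e1]
      rw [← Finset.mul_sum]
      have e2 : ∑ i, c i ^ 2 = 1 / area F := by
        field_simp
        exact hsum'
      rw [e2, hs2, hσ]
      apply le_of_eq
      field_simp
  obtain ⟨S, hS, hSQ, hsep⟩ := assign c' l hl hP
  choose h hh using hS
  set t : Fin n → (ℂ ≃ᵢ ℂ) := fun i =>
    (IsometryEquiv.addRight (-(c i • o'))).trans
      ((scaleIso s hs0.ne' (h i)).trans (IsometryEquiv.addRight (s • o))) with ht
  have ht_apply : ∀ i z, t i z = s • h i (s⁻¹ • (z + -(c i • o'))) + s • o := fun i z => rfl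
  have himg : ∀ i, ∀ z ∈ (t i) '' (c i • F), ∃ y ∈ S i, z = s • y + s • o := by
    rintro i _ ⟨_, ⟨f, hf, rfl⟩, rfl⟩
    obtain ⟨x, y, hx, hy, hxy, hfe⟩ := hout hf
    refine ⟨h i (s⁻¹ • (c i • f + -(c i • o'))), ?_, ht_apply i _⟩
    rw [hh i]
    refine ⟨_, ?_, rfl⟩
    refine ⟨0 + (x : ℂ) * u + (y : ℂ) * v, ⟨x, y, hx, hy, hxy, rfl⟩, ?_⟩
    have hsC : (s : ℂ) ≠ 0 := by exact_mod_cast hs0.ne'
    simp only [real_smul, hfe, hc']
    push_cast
    field_simp
    ring
  have hrefl : (IsometryEquiv.refl ℂ) '' (s • F) = s • F := image_id _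
  refine ⟨s • F, ⟨s, IsometryEquiv.refl ℂ, hs0, hrefl.symm⟩, ?_, ?_⟩
  · have := area_clone (IsometryEquiv.refl ℂ) (c := s) F
    rw [hrefl] at this
    rw [this, hs2]
    field_simp
  · have hcomp : ∀ i, ((g i).symm.trans (t i)) '' G i = (t i) '' (c i • F) := by
      intro i
      rw [hg i, image_image]
      apply image_congr
      intro z _
      simp
    refine ⟨fun i => (g i).symm.trans (t i), ?_, ?_⟩
    · intro i
      rw [hcomp i]
      intro z hz
      obtain ⟨y, hy, rfl⟩ := himg i z hz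
      obtain ⟨x1, x2, h1, h2, h3, he⟩ := hSQ i hy
      refine ⟨o + x1 * u + x2 * v, hin ⟨x1, x2, h1, h2, h3, rfl⟩, ?_⟩
      rw [he]
      simp only [real_smul]
      ring
    · intro i j hij
      simp only [hcomp]
      apply SepSets.disjoint
      obtain ⟨f, a, hf, h1, h2⟩ := hsep i j hij
      refine ⟨f, s * a + f (s • o), hf, ?_, ?_⟩
      · intro z hz
        obtain ⟨y, hy, rfl⟩ := himg i z hz
        rw [map_add, map_smul, smul_eq_mul]
        have := mul_le_mul_of_nonneg_left (h1 y hy) hs0.le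
        linarith
      · intro z hz
        obtain ⟨y, hy, rfl⟩ := himg j z hz
        rw [map_add, map_smul f s y, smul_eq_mul]
        have := mul_le_mul_of_nonneg_left (h2 y hy) hs0.le
        linarith

end Pool.Agent.H21.Tri
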