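import Pool.Agent.H90.Clone.Geom
import Pool.Agent.H90.Clone.Area

set_option autoImplicit false

/-!
# Triangles: copies and packings
-/

namespace Pool.Agent.H21.Tri

open Pool.Agent.H90.Clone Complex Set Pointwise

/-- The triangle with vertices `o`, `o + u`, `o + v`. -/
def Tri (o u v : ℂ) : Set ℂ :=
  {z | ∃ x y : ℝ, 0 ≤ x ∧ 0 ≤ y ∧ x + y ≤ 1 ∧ z = o + x * u + y * v}

/-- `S` is an isometric image of `c • T`. -/
def IsCopy (T : Set ℂ) (c : ℝ) (S : Set ℂ) : Prop := ∃ g : ℂ ≃ᵢ ℂ, S = g '' (c • T)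

/-- Copies of `T` of the scales `L` are packed in `Q`. -/
def Pack (T Q : Set ℂ) (L : List ℝ) : Prop :=
  ∃ A : List (Set ℂ), List.Forall₂ (IsCopy T) L A ∧ (∀ S ∈ A, S ⊆ Q) ∧ A.Pairwise SepSets

variable {u v : ℂ}

lemma mem_Tri (h : det u v ≠ 0) (z : ℂ) :
    z ∈ Tri 0 u v ↔ 0 ≤ fx u v z ∧ 0 ≤ fy u v z ∧ fx u v z + fy u v z ≤ 1 := by
  constructor
  · rintro ⟨x, y, hx, hy, hxy, rfl⟩
    rw [zero_add, fx_comb h, fy_comb h]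
    exact ⟨hx, hy, hxy⟩
  · rintro ⟨hx, hy, hxy⟩
    refine ⟨_, _, hx, hy, hxy, ?_⟩
    rw [zero_add]
    exact comb_eq h z

lemma mem_smul_Tri (h : det u v ≠ 0) {c : ℝ} (hc : 0 < c) (z : ℂ) :
    z ∈ c • Tri 0 u v ↔ 0 ≤ fx u v z ∧ 0 ≤ fy u v z ∧ fx u v z + fy u v z ≤ c := by
  rw [mem_smul_set_iff_inv_smul_mem₀ hc.ne', mem_Tri h, map_smul, map_smul, smul_eq_mul,
    smul_eq_mul, ← mul_add, inv_mul_le_iff₀ hc, mul_one]
  constructor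
  · rintro ⟨h1, h2, h3⟩
    refine ⟨?_, ?_, h3⟩
    · exact nonneg_of_mul_nonneg_right h1 (inv_pos.mpr hc)
    · exact nonneg_of_mul_nonneg_right h2 (inv_pos.mpr hc)
  · rintro ⟨h1, h2, h3⟩
    exact ⟨mul_nonneg (inv_pos.mpr hc).le h1, mul_nonneg (inv_pos.mpr hc).le h2, h3⟩

/-- upright triangle -/
def Up (u v : ℂ) (p q c : ℝ) : Set ℂ :=
  {z | p ≤ fx u v z ∧ q ≤ fy u v z ∧ fx u v z + fy u v z ≤ p + q + c}

/-- inverted triangle -/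
def Down (u v : ℂ) (p q c : ℝ) : Set ℂ :=
  {z | fx u v z ≤ p + c ∧ fy u v z ≤ q + c ∧ p + q + c ≤ fx u v z + fy u v z}

lemma copy_up (h : det u v ≠ 0) {c : ℝ} (hc : 0 < c) (p q : ℝ) :
    IsCopy (Tri 0 u v) c (Up u v p q c) := by
  refine ⟨IsometryEquiv.addRight ((p : ℂ) * u + (q : ℂ) * v), ?_⟩
  ext z
  have hX := fx_comb h p q
  have hY := fy_comb h p q
  constructor
  · rintro ⟨h1, h2, h3⟩
    refine ⟨z - ((p : ℂ) * u + (q : ℂ) * v), ?_, by simp⟩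
    rw [mem_smul_Tri h hc, map_sub, map_sub, hX, hY]
    exact ⟨by linarith, by linarith, by linarith⟩
  · rintro ⟨w, hw, rfl⟩
    rw [mem_smul_Tri h hc] at hw
    obtain ⟨h1, h2, h3⟩ := hw
    have e1 := map_add (fx u v) w ((p : ℂ) * u + (q : ℂ) * v)
    have e2 := map_add (fy u v) w ((p : ℂ) * u + (q : ℂ) * v)
    rw [hX] at e1
    rw [hY] at e2
    change p ≤ fx u v (w + ((p : ℂ) * u + (q : ℂ) * v)) ∧
      q ≤ fy u v (w + ((p : ℂ) * u + (q : ℂ) * v)) ∧ fx u v (w + ((p : ℂ) * u + (q : ℂ) * v)) +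
        fy u v (w + ((p : ℂ) * u + (q : ℂ) * v)) ≤ p + q + c
    rw [e1, e2]
    exact ⟨by linarith, by linarith, by linarith⟩

lemma copy_down (h : det u v ≠ 0) {c : ℝ} (hc : 0 < c) (p q : ℝ) :
    IsCopy (Tri 0 u v) c (Down u v p q c) := by
  refine ⟨(IsometryEquiv.neg ℂ).trans
    (IsometryEquiv.addRight (((p + c : ℝ) : ℂ) * u + ((q + c : ℝ) : ℂ) * v)), ?_⟩
  ext z
  have hX := fx_comb h (p + c) (q + c)
  have hY := fy_comb h (p + c) (q + c)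
  constructor
  · rintro ⟨h1, h2, h3⟩
    refine ⟨(((p + c : ℝ) : ℂ) * u + ((q + c : ℝ) : ℂ) * v) - z, ?_, by simp⟩
    rw [mem_smul_Tri h hc, map_sub, map_sub, hX, hY]
    exact ⟨by linarith, by linarith, by linarith⟩
  · rintro ⟨w, hw, rfl⟩
    rw [mem_smul_Tri h hc] at hw
    obtain ⟨h1, h2, h3⟩ := hw
    have e1 := map_add (fx u v) (-w) (((p + c : ℝ) : ℂ) * u + ((q + c : ℝ) : ℂ) * v)
    have e2 := map_add (fy u v) (-w) (((p + c : ℝ) : ℂ) * u + ((q + c : ℝ) : ℂ) * v)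
    rw [hX, map_neg] at e1
    rw [hY, map_neg] at e2
    change fx u v (-w + (((p + c : ℝ) : ℂ) * u + ((q + c : ℝ) : ℂ) * v)) ≤ p + c ∧
      fy u v (-w + (((p + c : ℝ) : ℂ) * u + ((q + c : ℝ) : ℂ) * v)) ≤ q + c ∧ p + q + c ≤
        fx u v (-w + (((p + c : ℝ) : ℂ) * u + ((q + c : ℝ) : ℂ) * v)) +
        fy u v (-w + (((p + c : ℝ) : ℂ) * u + ((q + c : ℝ) : ℂ) * v))
    rw [e1, e2]
    exact ⟨by linarith, by linarith, by linarith⟩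

variable {T : Set ℂ}

lemma Pack.nil (Q : Set ℂ) : Pack T Q [] := ⟨[], List.Forall₂.nil, by simp, List.Pairwise.nil⟩

lemma Pack.mono {Q Q' : Set ℂ} {L : List ℝ} (h : Pack T Q L) (hQ : Q ⊆ Q') : Pack T Q' L := by
  obtain ⟨A, h1, h2, h3⟩ := h
  exact ⟨A, h1, fun S hS => (h2 S hS).trans hQ, h3⟩

lemma Pack.single {Q S : Set ℂ} {c : ℝ} (h : IsCopy T c S) (hQ : S ⊆ Q) : Pack T Q [c] :=
  ⟨[S], List.Forall₂.cons h List.Forall₂.nil, by simpa using hQ, List.pairwise_singleton _ _⟩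

lemma Pack.append {Q1 Q2 Q : Set ℂ} {L1 L2 : List ℝ} (h1 : Pack T Q1 L1) (h2 : Pack T Q2 L2)
    (hs : SepSets Q1 Q2) (hQ1 : Q1 ⊆ Q) (hQ2 : Q2 ⊆ Q) : Pack T Q (L1 ++ L2) := by
  obtain ⟨A, a1, a2, a3⟩ := h1
  obtain ⟨B, b1, b2, b3⟩ := h2
  refine ⟨A ++ B, List.rel_append a1 b1, ?_, ?_⟩
  · intro S hS
    rcases List.mem_append.mp hS with hS | hS
    · exact (a2 S hS).trans hQ1
    · exact (b2 S hS).trans hQ2
  · rw [List.pairwise_append]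
    exact ⟨a3, b3, fun S hS S' hS' => hs.mono (a2 S hS) (b2 S' hS')⟩

lemma Pack.cons {Q1 Q2 Q : Set ℂ} {c : ℝ} {L : List ℝ} (h1 : IsCopy T c Q1) (h2 : Pack T Q2 L)
    (hs : SepSets Q1 Q2) (hQ1 : Q1 ⊆ Q) (hQ2 : Q2 ⊆ Q) : Pack T Q (c :: L) :=
  Pack.append (L1 := [c]) (Pack.single h1 Subset.rfl) h2 hs hQ1 hQ2

lemma X_ne (h : det u v ≠ 0) : fx u v ≠ 0 := fx_ne h
lemma Y_ne (h : det u v ≠ 0) : fy u v ≠ 0 := fy_ne h

lemma S_ne (h : det u v ≠ 0) : fx u v + fy u v ≠ 0 := by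
  intro h0
  have h1 : (fx u v + fy u v) ((1 : ℝ) * u + (0 : ℝ) * v) = 1 := by
    rw [_root_.add_apply, fx_comb h, fy_comb h]
    norm_num
  rw [h0] at h1
  simp at h1

lemma sepX (h : det u v ≠ 0) {A B : Set ℂ} (t : ℝ) (hA : ∀ z ∈ A, fx u v z ≤ t)
    (hB : ∀ z ∈ B, t ≤ fx u v z) : SepSets A B := ⟨fx u v, t, X_ne h, hA, hB⟩

lemma sepY (h : det u v ≠ 0) {A B : Set ℂ} (t : ℝ) (hA : ∀ z ∈ A, fy u v z ≤ t)
    (hB : ∀ z ∈ B, t ≤ fy u v z) : SepSets A B := ⟨fy u v, t, Y_ne h, hA, hB⟩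

lemma sepS (h : det u v ≠ 0) {A B : Set ℂ} (t : ℝ) (hA : ∀ z ∈ A, fx u v z + fy u v z ≤ t)
    (hB : ∀ z ∈ B, t ≤ fx u v z + fy u v z) : SepSets A B := ⟨fx u v + fy u v, t, S_ne h, hA, hB⟩

end Pool.Agent.H21.Tri
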