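import Pool.Agent.H21.Tri.Adm

set_option autoImplicit false

/-!
# Equilateral triangles: two copies of scale larger than `1/2` do not fit
-/

namespace Pool.Agent.H21.Tri

open Pool.Agent.H90.Clone Complex Set Pointwise MeasureTheory

variable {u v : ℂ}

/-- Squares of the real parts of the sides of an equilateral triangle. -/
lemma re_sq {p q : ℂ} {N : ℝ} (hN : 0 < N) (h1 : p.re ^ 2 + p.im ^ 2 = N)
    (h2 : q.re ^ 2 + q.im ^ 2 = N) (h3 : (p.re - q.re) ^ 2 + (p.im - q.im) ^ 2 = N) :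
    p.re ^ 2 + q.re ^ 2 + (p.re - q.re) ^ 2 = 3 / 2 * N := by
  have h4 : p.re * q.re + p.im * q.im = N / 2 := by nlinarith
  set D := p.re * q.im - p.im * q.re with hD
  have hD2 : D ^ 2 = 3 / 4 * N ^ 2 := by
    have e : D ^ 2 = (p.re ^ 2 + p.im ^ 2) * (q.re ^ 2 + q.im ^ 2) -
      (p.re * q.re + p.im * q.im) ^ 2 := by rw [hD]; ring
    rw [e, h1, h2, h4]
    ring
  have hq : N * q.re = N / 2 * p.re - p.im * D := by
    rw [hD]
    linear_combination (-q.re) * h1 + p.re * h4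
  have e1 : N ^ 2 * (p.re ^ 2 + q.re ^ 2 - p.re * q.re) = N ^ 2 * (3 / 4 * N) := by
    have : N ^ 2 * (p.re ^ 2 + q.re ^ 2 - p.re * q.re) =
      N ^ 2 * p.re ^ 2 + (N * q.re) ^ 2 - N * p.re * (N * q.re) := by ring
    rw [this, hq]
    have : N ^ 2 * p.re ^ 2 + (N / 2 * p.re - p.im * D) ^ 2 -
      N * p.re * (N / 2 * p.re - p.im * D) = 3 / 4 * N ^ 2 * p.re ^ 2 + p.im ^ 2 * D ^ 2 := by ring
    rw [this, hD2]
    linear_combination (3 / 4 * N ^ 2) * h1
  have hN2 : N ^ 2 ≠ 0 := by positivity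
  have e2 := mul_left_cancel₀ hN2 e1
  linarith

lemma func_re (f : ℂ →L[ℝ] ℝ) (z : ℂ) : f z = ((⟨f 1, -f I⟩ : ℂ) * z).re := by
  have h : z = z.re • (1 : ℂ) + z.im • I := by
    apply Complex.ext <;> simp
  conv_lhs => rw [h]
  rw [map_add, map_smul, map_smul]
  simp only [smul_eq_mul, mul_re]
  ring

/-- The quadratic sum is the same for all positions of the equilateral triangle. -/
lemma sum_sq_eq (hd : det u v ≠ 0) (h1 : ‖u‖ = ‖v‖) (h2 : ‖u - v‖ = ‖u‖) (f : ℂ →L[ℝ] ℝ)
    (L : ℂ ≃ₗᵢ[ℝ] ℂ) : f (L u) ^ 2 + f (L v) ^ 2 + (f (L u) - f (L v)) ^ 2 =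
      f u ^ 2 + f v ^ 2 + (f u - f v) ^ 2 := by
  obtain ⟨hu, hv⟩ := ne_of_det hd
  set m : ℂ := ⟨f 1, -f I⟩ with hm
  by_cases hm0 : m = 0
  · have hf : ∀ z, f z = 0 := by
      intro z
      rw [func_re, ← hm, hm0]
      simp
    simp [hf]
  · have hmn : 0 < ‖m‖ := norm_pos_iff.mpr hm0
    have hun : 0 < ‖u‖ := norm_pos_iff.mpr hu
    have gen : ∀ a b : ℂ, ‖a‖ = ‖u‖ → ‖b‖ = ‖u‖ → ‖a - b‖ = ‖u‖ →
        f a ^ 2 + f b ^ 2 + (f a - f b) ^ 2 = 3 / 2 * (‖m‖ * ‖u‖) ^ 2 := by
      intro a b ha hb hab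
      have key := re_sq (p := m * a) (q := m * b) (N := (‖m‖ * ‖u‖) ^ 2) (by positivity) ?_ ?_ ?_
      · rw [func_re f a, func_re f b, ← hm]
        exact key
      · have := Complex.sq_norm (m * a)
        rw [Complex.normSq_apply, norm_mul, ha] at this
        rw [this]; ring
      · have := Complex.sq_norm (m * b)
        rw [Complex.normSq_apply, norm_mul, hb] at this
        rw [this]; ring
      · have := Complex.sq_norm (m * a - m * b)
        rw [Complex.normSq_apply, ← mul_sub, norm_mul, hab] at this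
        rw [this, mul_sub]
        simp only [sub_re, sub_im]
        ring
    rw [gen (L u) (L v) (L.norm_map u) (by rw [L.norm_map, h1]) (by rw [← map_sub, L.norm_map, h2]),
      gen u v rfl h1.symm h2]

/-- width of a copy -/
lemma width (hd : det u v ≠ 0) (h1 : ‖u‖ = ‖v‖) (h2 : ‖u - v‖ = ‖u‖) (f : ℂ →L[ℝ] ℝ)
    (hf : f u ^ 2 + f v ^ 2 + (f u - f v) ^ 2 = 2) {c : ℝ} (hc : 0 < c) {S : Set ℂ}
    (hS : IsCopy (Tri 0 u v) c S) : ∃ z ∈ S, ∃ z' ∈ S, c ≤ f z - f z' := by
  obtain ⟨g, rfl⟩ := hS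
  set L : ℂ ≃ₗᵢ[ℝ] ℂ := g.toRealLinearIsometryEquiv with hL
  have hg : ∀ z, g z = L z + g 0 := by
    intro z
    have := g.toRealLinearIsometryEquiv_apply z
    rw [hL, this]
    ring
  have hsum := sum_sq_eq hd h1 h2 f L
  rw [hf] at hsum
  set a := f (L u) with ha
  set b := f (L v) with hb
  have m0 : g (c • 0) ∈ g '' (c • Tri 0 u v) := ⟨_, ⟨0, by rw [mem_Tri hd]; simp, rfl⟩, rfl⟩
  have m1 : g (c • u) ∈ g '' (c • Tri 0 u v) := by
    refine ⟨_, ⟨u, ⟨1, 0, by norm_num, le_rfl, by norm_num, by simp⟩, rfl⟩, rfl⟩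
  have m2 : g (c • v) ∈ g '' (c • Tri 0 u v) := by
    refine ⟨_, ⟨v, ⟨0, 1, le_rfl, by norm_num, by norm_num, by simp⟩, rfl⟩, rfl⟩
  have f0 : f (g (c • 0)) = f (g 0) := by rw [smul_zero]
  have f1 : f (g (c • u)) = c * a + f (g 0) := by
    rw [hg, map_add, map_smul, map_smul, smul_eq_mul]
  have f2 : f (g (c • v)) = c * b + f (g 0) := by
    rw [hg, map_add, map_smul, map_smul, smul_eq_mul]
  have hor : 1 ≤ a ∨ 1 ≤ -a ∨ 1 ≤ b ∨ 1 ≤ -b ∨ 1 ≤ a - b ∨ 1 ≤ b - a := by
    by_contra hcon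
    push Not at hcon
    obtain ⟨c1, c2, c3, c4, c5, c6⟩ := hcon
    rcases le_total 0 a with ha0 | ha0 <;> rcases le_total 0 b with hb0 | hb0 <;>
      rcases le_total a b with hab | hab <;> nlinarith
  rcases hor with h | h | h | h | h | h
  · exact ⟨_, m1, _, m0, by rw [f1, f0]; nlinarith⟩
  · exact ⟨_, m0, _, m1, by rw [f1, f0]; nlinarith⟩
  · exact ⟨_, m2, _, m0, by rw [f2, f0]; nlinarith⟩
  · exact ⟨_, m0, _, m2, by rw [f2, f0]; nlinarith⟩
  · exact ⟨_, m1, _, m2, by rw [f1, f2]; nlinarith⟩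
  · exact ⟨_, m2, _, m1, by rw [f1, f2]; nlinarith⟩

/-- Two separated copies of scale `c` in `s • T` need `2 c ≤ s`. -/
lemma core (hd : det u v ≠ 0) (h1 : ‖u‖ = ‖v‖) (h2 : ‖u - v‖ = ‖u‖) {c s : ℝ} (hc : 0 < c)
    (hs : 0 < s) {A B : Set ℂ} (hA : IsCopy (Tri 0 u v) c A) (hB : IsCopy (Tri 0 u v) c B)
    (hAT : A ⊆ s • Tri 0 u v) (hBT : B ⊆ s • Tri 0 u v) (hsep : SepSets A B) : 2 * c ≤ s := by
  obtain ⟨f, t, hf, hfA, hfB⟩ := hsep
  have fu0 : fx u v u = 1 := by have := fx_comb hd 1 0; simpa using this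
  have fu1 : fy u v u = 0 := by have := fy_comb hd 1 0; simpa using this
  have fv0 : fx u v v = 0 := by have := fx_comb hd 0 1; simpa using this
  have fv1 : fy u v v = 1 := by have := fy_comb hd 0 1; simpa using this
  -- widths
  have wX : ∀ S, IsCopy (Tri 0 u v) c S → S ⊆ s • Tri 0 u v → ∃ z ∈ S, c ≤ fx u v z := by
    intro S hS hST
    obtain ⟨z, hz, z', hz', h⟩ := width hd h1 h2 (fx u v) (by rw [fu0, fv0]; norm_num) hc hS
    have := hST hz'
    rw [mem_smul_Tri hd hs] at this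
    exact ⟨z, hz, by linarith [this.1]⟩
  have wY : ∀ S, IsCopy (Tri 0 u v) c S → S ⊆ s • Tri 0 u v → ∃ z ∈ S, c ≤ fy u v z := by
    intro S hS hST
    obtain ⟨z, hz, z', hz', h⟩ := width hd h1 h2 (fy u v) (by rw [fu1, fv1]; norm_num) hc hS
    have := hST hz'
    rw [mem_smul_Tri hd hs] at this
    exact ⟨z, hz, by linarith [this.2.1]⟩
  have wZ : ∀ S, IsCopy (Tri 0 u v) c S → S ⊆ s • Tri 0 u v →
      ∃ z ∈ S, c ≤ s - fx u v z - fy u v z := by
    intro S hS hST
    obtain ⟨z, hz, z', hz', h⟩ := width hd h1 h2 (-(fx u v + fy u v)) (by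
      simp only [_root_.neg_apply, _root_.add_apply, fu0, fu1, fv0, fv1]; norm_num) hc hS
    have := hST hz'
    rw [mem_smul_Tri hd hs] at this
    simp only [_root_.neg_apply, _root_.add_apply] at h
    exact ⟨z, hz, by linarith [this.2.2]⟩
  set α := f u with hα
  set β := f v with hβ
  have fz : ∀ z, f z = fx u v z * α + fy u v z * β := by
    intro z
    conv_lhs => rw [comb_eq hd z]
    have e1 : ∀ (x : ℝ) (w : ℂ), (x : ℂ) * w = x • w := fun x w => by rw [real_smul]
    rw [e1, e1, map_add, map_smul, map_smul, smul_eq_mul, smul_eq_mul]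
  have hne : ¬ (α = 0 ∧ β = 0) := by
    rintro ⟨ha, hb⟩
    apply hf
    ext z
    rw [fz, ha, hb]
    simp
  have inA : ∀ z ∈ A, 0 ≤ fx u v z ∧ 0 ≤ fy u v z ∧ fx u v z + fy u v z ≤ s := fun z hz => by
    have := hAT hz
    rwa [mem_smul_Tri hd hs] at this
  have inB : ∀ z ∈ B, 0 ≤ fx u v z ∧ 0 ≤ fy u v z ∧ fx u v z + fy u v z ≤ s := fun z hz => by
    have := hBT hz
    rwa [mem_smul_Tri hd hs] at this
  -- values at the vertices: 0, s α, s β
  -- the copy A reaches height c over the side opposite to the maximal vertex,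
  -- the copy B over the side opposite to the minimal vertex
  rcases le_total α 0 with a0 | a0 <;> rcases le_total β 0 with b0 | b0
  · -- max at 0
    obtain ⟨z, hz, h⟩ := wZ A hA hAT
    have e1 := hfA z hz
    have i1 := inA z hz
    rw [fz] at e1
    rcases le_total α β with ab | ab
    · -- min at α
      have hα0 : α < 0 := lt_of_le_of_ne a0 (fun h0 => hne ⟨h0, by linarith⟩)
      obtain ⟨w, hw, h'⟩ := wX B hB hBT
      have e2 := hfB w hw
      have i2 := inB w hw
      rw [fz] at e2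
      -- t ≤ α x + β y ≤ c α ... and α x + β y ≥ α (s - c)
      have g1 : fx u v w * α + fy u v w * β ≤ c * α := by
        have := mul_nonpos_of_nonneg_of_nonpos i2.2.1 b0
        nlinarith
      have g2 : (s - c) * α ≤ fx u v z * α + fy u v z * β := by
        have k1 : fy u v z * α ≤ fy u v z * β := mul_le_mul_of_nonneg_left ab i1.2.1
        nlinarith
      nlinarith
    · have hβ0 : β < 0 := lt_of_le_of_ne b0 (fun h0 => hne ⟨by linarith, h0⟩)
      obtain ⟨w, hw, h'⟩ := wY B hB hBT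
      have e2 := hfB w hw
      have i2 := inB w hw
      rw [fz] at e2
      have g1 : fx u v w * α + fy u v w * β ≤ c * β := by
        have := mul_nonpos_of_nonneg_of_nonpos i2.1 a0
        nlinarith
      have g2 : (s - c) * β ≤ fx u v z * α + fy u v z * β := by
        have k1 : fx u v z * β ≤ fx u v z * α := mul_le_mul_of_nonneg_left ab i1.1
        nlinarith
      nlinarith
  · -- α ≤ 0 ≤ β: max at β, min at α
    obtain ⟨z, hz, h⟩ := wY A hA hAT
    obtain ⟨w, hw, h'⟩ := wX B hB hBT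
    have e1 := hfA z hz
    have i1 := inA z hz
    rw [fz] at e1
    have e2 := hfB w hw
    have i2 := inB w hw
    rw [fz] at e2
    have hlt : 0 < β - α := by
      by_contra hcon
      exact hne ⟨by linarith, by linarith⟩
    -- A: x α + y β ≥ c β + (s - c) α ; B: x α + y β ≤ c α + (s - c) β
    have g1 : c * β + (s - c) * α ≤ fx u v z * α + fy u v z * β := by
      have k1 : c * β + (fy u v z - c) * α ≤ fy u v z * β := by nlinarith
      nlinarith
    have g2 : fx u v w * α + fy u v w * β ≤ c * α + (s - c) * β := by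
      nlinarith
    nlinarith
  · -- β ≤ 0 ≤ α
    obtain ⟨z, hz, h⟩ := wX A hA hAT
    obtain ⟨w, hw, h'⟩ := wY B hB hBT
    have e1 := hfA z hz
    have i1 := inA z hz
    rw [fz] at e1
    have e2 := hfB w hw
    have i2 := inB w hw
    rw [fz] at e2
    have hlt : 0 < α - β := by
      by_contra hcon
      exact hne ⟨by linarith, by linarith⟩
    have g1 : c * α + (s - c) * β ≤ fx u v z * α + fy u v z * β := by
      nlinarith
    have g2 : fx u v w * α + fy u v w * β ≤ c * β + (s - c) * α := by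
      nlinarith
    nlinarith
  · -- min at 0
    obtain ⟨w, hw, h'⟩ := wZ B hB hBT
    have e2 := hfB w hw
    have i2 := inB w hw
    rw [fz] at e2
    rcases le_total α β with ab | ab
    · have hβ0 : 0 < β := lt_of_le_of_ne b0 (fun h0 => hne ⟨by linarith, h0.symm⟩)
      obtain ⟨z, hz, h⟩ := wY A hA hAT
      have e1 := hfA z hz
      have i1 := inA z hz
      rw [fz] at e1
      have g1 : c * β ≤ fx u v z * α + fy u v z * β := by
        have := mul_nonneg i1.1 a0
        nlinarith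
      have g2 : fx u v w * α + fy u v w * β ≤ (s - c) * β := by
        have k1 : fx u v w * α ≤ fx u v w * β := mul_le_mul_of_nonneg_left ab i2.1
        nlinarith
      nlinarith
    · have hα0 : 0 < α := lt_of_le_of_ne a0 (fun h0 => hne ⟨h0.symm, by linarith⟩)
      obtain ⟨z, hz, h⟩ := wX A hA hAT
      have e1 := hfA z hz
      have i1 := inA z hz
      rw [fz] at e1
      have g1 : c * α ≤ fx u v z * α + fy u v z * β := by
        have := mul_nonneg i1.2.1 b0
        nlinarith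
      have g2 : fx u v w * α + fy u v w * β ≤ (s - c) * α := by
        have k1 : fy u v w * β ≤ fy u v w * α := mul_le_mul_of_nonneg_left ab i2.2.1
        nlinarith
      nlinarith

end Pool.Agent.H21.Tri
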