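import Pool.Agent.H21.Tri.Equi

set_option autoImplicit false

/-!
# The clone packing constant of triangles
-/

namespace Pool.Agent.H21.Tri

open Pool.Agent.H90.Clone Complex Set Pointwise MeasureTheory

variable {u v : ℂ}

lemma Tri_add (o u v : ℂ) : Tri o u v = (fun z => z + o) '' Tri 0 u v := by
  ext z
  constructor
  · rintro ⟨x, y, h1, h2, h3, rfl⟩
    exact ⟨0 + x * u + y * v, ⟨x, y, h1, h2, h3, rfl⟩, by ring⟩
  · rintro ⟨_, ⟨x, y, h1, h2, h3, rfl⟩, rfl⟩
    exact ⟨x, y, h1, h2, h3, by ring⟩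

lemma smul_Tri_add (c : ℝ) (o u v : ℂ) :
    c • Tri o u v = (IsometryEquiv.addRight (c • o)) '' (c • Tri 0 u v) := by
  rw [Tri_add]
  ext z
  constructor
  · rintro ⟨_, ⟨w, hw, rfl⟩, rfl⟩
    refine ⟨c • w, ⟨w, hw, rfl⟩, ?_⟩
    simp [mul_add]
  · rintro ⟨_, ⟨w, hw, rfl⟩, rfl⟩
    refine ⟨w + o, ⟨w, hw, rfl⟩, ?_⟩
    simp [mul_add]

lemma Tri_fig' (hd : det u v ≠ 0) (o : ℂ) : IsConvexFigure (Tri o u v) := by
  have h := Tri_fig hd
  refine ⟨?_, Tri_convex o u v, ?_⟩
  · rw [Tri_add]
    exact h.1.image (by fun_prop)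
  · rw [Tri_add]
    have e : (fun z : ℂ => z + o) '' Tri 0 u v = (Homeomorph.addRight o) '' Tri 0 u v := rfl
    rw [e, ← Homeomorph.image_interior]
    exact h.2.2.image _

/-- separation of convex sets with disjoint interiors -/
lemma sep_of_disjoint {A B : Set ℂ} (hA : Convex ℝ A) (hB : Convex ℝ B)
    (iA : (interior A).Nonempty) (iB : (interior B).Nonempty)
    (h : Disjoint (interior A) (interior B)) : SepSets A B := by
  obtain ⟨f, t, h1, h2⟩ := geometric_hahn_banach_open_open hA.interior isOpen_interior hB.interior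
    isOpen_interior h
  refine ⟨f, t, ?_, ?_, ?_⟩
  · rintro rfl
    obtain ⟨a, ha⟩ := iA
    obtain ⟨b, hb⟩ := iB
    have := h1 a ha
    have := h2 b hb
    simp at *
    linarith
  · intro z hz
    have hz' : z ∈ closure (interior A) := by
      rw [hA.closure_interior_eq_closure_of_nonempty_interior iA]
      exact subset_closure hz
    have hcl : IsClosed {z | f z ≤ t} := isClosed_le f.continuous continuous_const
    exact closure_minimal (fun w hw => (h1 w hw).le) hcl hz'
  · intro z hz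
    have hz' : z ∈ closure (interior B) := by
      rw [hB.closure_interior_eq_closure_of_nonempty_interior iB]
      exact subset_closure hz
    have hcl : IsClosed {z | t ≤ f z} := isClosed_le continuous_const f.continuous
    exact closure_minimal (fun w hw => (h2 w hw).le) hcl hz'

/-- An equilateral triangle has no admissible number below 2. -/
theorem equi_lower (hd : det u v ≠ 0) (h1 : ‖u‖ = ‖v‖) (h2 : ‖u - v‖ = ‖u‖) (o : ℂ) (σ : ℝ)
    (hσ : Admissible (Tri o u v) σ) : 2 ≤ σ := by
  have hF := Tri_fig' hd o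
  have hAF := area_pos hF
  set F := Tri o u v with hFd
  set c := Real.sqrt (1 / (2 * area F)) with hcd
  have hc : 0 < c := Real.sqrt_pos.mpr (by positivity)
  have hc2 : c ^ 2 = 1 / (2 * area F) := Real.sq_sqrt (by positivity)
  have hrefl : (IsometryEquiv.refl ℂ) '' (c • F) = c • F := image_id _
  have harea : area (c • F) = 1 / 2 := by
    have := area_clone (IsometryEquiv.refl ℂ) (c := c) F
    rw [hrefl] at this
    rw [this, hc2]
    field_simp
  obtain ⟨Q, ⟨s, g, hs, rfl⟩, hQ, hpack⟩ := hσ 2 (fun _ => c • F)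
    (fun _ => ⟨c, IsometryEquiv.refl ℂ, hc, hrefl.symm⟩) (by simp [harea])
  obtain ⟨h, hin, hdis⟩ := hpack
  rw [area_clone] at hQ
  by_contra hcon
  push Not at hcon
  -- pull back to s • Tri 0 u v
  set k : ℂ ≃ᵢ ℂ := (IsometryEquiv.addRight (s • o)).trans g with hk
  have hQk : g '' (s • F) = k '' (s • Tri 0 u v) := by
    rw [hFd, smul_Tri_add, image_image, hk]
    rfl
  have hcF : c • F = (IsometryEquiv.addRight (c • o)) '' (c • Tri 0 u v) := smul_Tri_add c o u v
  have hcopy : ∀ i, IsCopy (Tri 0 u v) c (k.symm '' (h i '' (c • F))) := by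
    intro i
    refine ⟨(IsometryEquiv.addRight (c • o)).trans ((h i).trans k.symm), ?_⟩
    rw [hcF, image_image, image_image]
    rfl
  have hsub : ∀ i, k.symm '' (h i '' (c • F)) ⊆ s • Tri 0 u v := by
    intro i
    rintro _ ⟨z, hz, rfl⟩
    have := hin i hz
    rw [hQk] at this
    obtain ⟨w, hw, rfl⟩ := this
    simpa using hw
  have hint : ∀ i, (interior (k.symm '' (h i '' (c • F)))).Nonempty := by
    intro i
    have e1 : interior (k.symm '' (h i '' (c • F))) = k.symm '' (h i '' (interior (c • F))) := by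
      have a1 := (k.symm.toHomeomorph).image_interior (h i '' (c • F))
      have a2 := ((h i).toHomeomorph).image_interior (c • F)
      simp only [IsometryEquiv.coe_toHomeomorph] at a1 a2
      rw [← a1, ← a2]
    rw [e1, interior_smul₀ hc.ne']
    exact ((hF.2.2.smul_set (a := c)).image _).image _
  have hdis' : Disjoint (interior (k.symm '' (h 0 '' (c • F))))
      (interior (k.symm '' (h 1 '' (c • F)))) := by
    have a1 : ∀ i, interior (k.symm '' (h i '' (c • F))) =
        k.symm '' (interior (h i '' (c • F))) := by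
      intro i
      have := (k.symm.toHomeomorph).image_interior (h i '' (c • F))
      simp only [IsometryEquiv.coe_toHomeomorph] at this
      exact this.symm
    rw [a1, a1]
    exact (Set.disjoint_image_iff k.symm.injective).mpr (hdis 0 1 (by decide))
  have hsep := sep_of_disjoint ((hcopy 0).convex (Tri_convex 0 u v))
    ((hcopy 1).convex (Tri_convex 0 u v)) (hint 0) (hint 1) hdis'
  have hcs := core hd h1 h2 hc hs (hcopy 0) (hcopy 1) (hsub 0) (hsub 1) hsep
  -- 2 c ≤ s and s² area F < 2 = 4 c² area F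
  have h5 : (2 * c) ^ 2 ≤ s ^ 2 := by
    apply pow_le_pow_left₀ (by positivity) hcs
  have h6 : (2 * c) ^ 2 * area F = 2 := by
    rw [mul_pow, hc2]
    field_simp
  nlinarith [mul_le_mul_of_nonneg_right h5 hAF.le]

theorem admissible_two (hd : det u v ≠ 0) (o : ℂ) : Admissible (Tri o u v) 2 := by
  have h := admissible_of_pack hd (θ := 1 / 2) (by norm_num)
    (fun L hs hpos hsum => pack_half hd L hs hpos hsum) (Tri_fig' hd o) (o := o) (o' := o)
    (ε := 0) le_rfl Subset.rfl (by simp)
  norm_num at h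
  exact h

theorem near_lt (hd : det u v ≠ 0) (hne : ¬ (‖u‖ = ‖v‖ ∧ ‖u - v‖ = ‖u‖)) (o : ℂ) :
    ∃ ε : ℝ, 0 < ε ∧ ∀ (F : Set ℂ) (o' : ℂ), IsConvexFigure F → Tri o u v ⊆ F →
      F ⊆ Tri o' ((1 + ε : ℝ) * u) ((1 + ε : ℝ) * v) → ∃ σ : ℝ, σ < 2 ∧ Admissible F σ := by
  obtain ⟨δ, hδ, H⟩ := pack_gain hd (two_of_not_equilateral hd hne)
  set ε := min 1 (δ / 2) with hε
  have hε0 : 0 < ε := by positivity
  have hε1 : ε ≤ 1 := min_le_left _ _
  have hε2 : ε ≤ δ / 2 := min_le_right _ _
  refine ⟨ε, hε0, ?_⟩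
  intro F o' hF hin hout
  refine ⟨(1 + ε) ^ 2 / (1 / 2 + δ), ?_, admissible_of_pack hd (by positivity) H hF hε0.le hin hout⟩
  rw [div_lt_iff₀ (by linarith)]
  nlinarith

end Pool.Agent.H21.Tri
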