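import Pool.Agent.H21.Tri.Basic

set_option autoImplicit false

/-!
# Two copies of scale larger than `1/2` in a triangle that is not equilateral
-/

namespace Pool.Agent.H21.Tri

open Pool.Agent.H90.Clone Complex Set Pointwise Filter Topology

variable {u v : ℂ}

/-- Two disjoint copies of scale larger than `1 / 2`. -/
def Two (T : Set ℂ) : Prop :=
  ∃ (l : ℝ) (A B : Set ℂ), 1 / 2 < l ∧ IsCopy T l A ∧ IsCopy T l B ∧ A ⊆ T ∧ B ⊆ T ∧ SepSets A B

/-- the isometry `z ↦ w * conj z + b` -/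
noncomputable def refl (w b : ℂ) (hw : ‖w‖ = 1) : ℂ ≃ᵢ ℂ :=
  (conjLIE.toIsometryEquiv.trans
    (rotation ⟨w, mem_sphere_zero_iff_norm.mpr hw⟩).toIsometryEquiv).trans
    (IsometryEquiv.addRight b)

lemma refl_apply (w b : ℂ) (hw : ‖w‖ = 1) (z : ℂ) :
    refl w b hw z = w * (starRingEnd ℂ) z + b := rfl

lemma Tri_swap (o u v : ℂ) : Tri o v u = Tri o u v := by
  ext z
  constructor
  · rintro ⟨x, y, h1, h2, h3, rfl⟩
    exact ⟨y, x, h2, h1, by linarith, by ring⟩
  · rintro ⟨x, y, h1, h2, h3, rfl⟩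
    exact ⟨y, x, h2, h1, by linarith, by ring⟩

lemma Tri_rot (u v : ℂ) : (fun z => z + u) '' Tri 0 (-u) (v - u) = Tri 0 u v := by
  ext z
  constructor
  · rintro ⟨_, ⟨x, y, h1, h2, h3, rfl⟩, rfl⟩
    refine ⟨1 - x - y, y, by linarith, h2, by linarith, ?_⟩
    push_cast
    ring
  · rintro ⟨x, y, h1, h2, h3, rfl⟩
    refine ⟨0 + ((1 - x - y : ℝ) : ℂ) * (-u) + y * (v - u), ⟨1 - x - y, y, by linarith, h2,
      by linarith, rfl⟩, ?_⟩
    push_cast
    ring

lemma sep_translate {A B : Set ℂ} (h : SepSets A B) (a : ℂ) :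
    SepSets ((fun z => z + a) '' A) ((fun z => z + a) '' B) := by
  obtain ⟨f, t, hf, h1, h2⟩ := h
  refine ⟨f, t + f a, hf, ?_, ?_⟩
  · rintro _ ⟨z, hz, rfl⟩
    rw [map_add]
    linarith [h1 z hz]
  · rintro _ ⟨z, hz, rfl⟩
    rw [map_add]
    linarith [h2 z hz]

lemma IsCopy.translate {T : Set ℂ} {c : ℝ} {S : Set ℂ} (h : IsCopy T c S) (a : ℂ) :
    IsCopy ((fun z => z + a) '' T) c ((fun z => z + a) '' S) := by
  obtain ⟨g, rfl⟩ := h
  refine ⟨(IsometryEquiv.addRight (-(c • a))).trans (g.trans (IsometryEquiv.addRight a)), ?_⟩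
  have e1 : c • ((fun z => z + a) '' T) = (fun z => z + c • a) '' (c • T) := by
    ext z
    constructor
    · rintro ⟨_, ⟨w, hw, rfl⟩, rfl⟩
      refine ⟨c • w, ⟨w, hw, rfl⟩, ?_⟩
      simp [mul_add]
    · rintro ⟨_, ⟨w, hw, rfl⟩, rfl⟩
      refine ⟨w + a, ⟨w, hw, rfl⟩, ?_⟩
      simp [mul_add]
  rw [e1, image_image, image_image]
  apply image_congr
  intro z _
  simp

lemma Two.translate {T : Set ℂ} (h : Two T) (a : ℂ) : Two ((fun z => z + a) '' T) := by
  obtain ⟨l, A, B, hl, hA, hB, hAT, hBT, hs⟩ := h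
  exact ⟨l, _, _, hl, hA.translate a, hB.translate a, image_mono hAT, image_mono hBT,
    sep_translate hs a⟩

lemma two_rot (h : Two (Tri 0 (-u) (v - u))) : Two (Tri 0 u v) := by
  have := h.translate u
  rwa [Tri_rot] at this

lemma two_swap (h : Two (Tri 0 v u)) : Two (Tri 0 u v) := by rwa [Tri_swap] at h

lemma ne_of_det (h : det u v ≠ 0) : u ≠ 0 ∧ v ≠ 0 := by
  constructor
  · rintro rfl
    simp [det] at h
  · rintro rfl
    simp [det] at h

/-- Two sides with ratio in `(1/2, 1)`. -/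
lemma two_ratio (hd : det u v ≠ 0) (h1 : ‖v‖ < ‖u‖) (h2 : ‖u‖ < 2 * ‖v‖) : Two (Tri 0 u v) := by
  obtain ⟨hu, hv⟩ := ne_of_det hd
  have hu' : 0 < ‖u‖ := norm_pos_iff.mpr hu
  have hv' : 0 < ‖v‖ := norm_pos_iff.mpr hv
  set ρ := ‖v‖ / ‖u‖ with hρ
  have hρ0 : 0 < ρ := by positivity
  have hρ1 : ρ < 1 := by rw [hρ, div_lt_one hu']; exact h1
  have hρ2 : 1 / 2 < ρ := by rw [hρ, lt_div_iff₀ hu']; linarith
  obtain ⟨l, hl, hlρ, hl1⟩ : ∃ l : ℝ, 1 / 2 < l ∧ l ≤ ρ ∧ l * (1 + ρ) ≤ 1 := by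
    refine ⟨min ρ (1 / (1 + ρ)), ?_, min_le_left _ _, ?_⟩
    · apply lt_min hρ2
      rw [lt_div_iff₀ (by linarith)]
      linarith
    · have := min_le_right ρ (1 / (1 + ρ))
      rw [le_div_iff₀ (by linarith)] at this
      exact this
  have hl0 : 0 < l := by linarith
  set w : ℂ := (u * v) / ((‖u‖ * ‖v‖ : ℝ) : ℂ) with hw
  have hw1 : ‖w‖ = 1 := by
    rw [hw, norm_div, norm_mul, Complex.norm_real, Real.norm_eq_abs, abs_of_pos (by positivity)]
    field_simp
  have hcu : (starRingEnd ℂ) u * u = ((‖u‖ ^ 2 : ℝ) : ℂ) := by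
    rw [← Complex.normSq_eq_conj_mul_self, Complex.normSq_eq_norm_sq]
  have hcv : (starRingEnd ℂ) v * v = ((‖v‖ ^ 2 : ℝ) : ℂ) := by
    rw [← Complex.normSq_eq_conj_mul_self, Complex.normSq_eq_norm_sq]
  have hun : ((‖u‖ : ℝ) : ℂ) ≠ 0 := by exact_mod_cast hu'.ne'
  have hvn : ((‖v‖ : ℝ) : ℂ) ≠ 0 := by exact_mod_cast hv'.ne'
  have hwu : w * (starRingEnd ℂ) u = ((1 / ρ : ℝ) : ℂ) * v := by
    have : w * (starRingEnd ℂ) u = ((starRingEnd ℂ) u * u) * v / ((‖u‖ * ‖v‖ : ℝ) : ℂ) := by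
      rw [hw]; ring
    rw [this, hcu, hρ]
    push_cast
    field_simp
  have hwv : w * (starRingEnd ℂ) v = ((ρ : ℝ) : ℂ) * u := by
    have : w * (starRingEnd ℂ) v = ((starRingEnd ℂ) v * v) * u / ((‖u‖ * ‖v‖ : ℝ) : ℂ) := by
      rw [hw]; ring
    rw [this, hcv, hρ]
    push_cast
    field_simp
  have key : ∀ z ∈ refl w 0 hw1 '' (l • Tri 0 u v), 0 ≤ fx u v z ∧ 0 ≤ fy u v z ∧
      fx u v z + fy u v z ≤ 1 ∧ fx u v z ≤ 1 - l := by
    rintro _ ⟨z, hz, rfl⟩
    rw [mem_smul_Tri hd hl0] at hz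
    obtain ⟨hx, hy, hxy⟩ := hz
    set x := fx u v z with hxd
    set y := fy u v z with hyd
    have hzz : z = (x : ℂ) * u + (y : ℂ) * v := comb_eq hd z
    have e : refl w 0 hw1 z = ((ρ * y : ℝ) : ℂ) * u + ((1 / ρ * x : ℝ) : ℂ) * v := by
      rw [refl_apply, hzz, map_add, map_mul, map_mul, Complex.conj_ofReal, Complex.conj_ofReal]
      have : w * ((x : ℂ) * (starRingEnd ℂ) u + (y : ℂ) * (starRingEnd ℂ) v) + 0 =
        (x : ℂ) * (w * (starRingEnd ℂ) u) + (y : ℂ) * (w * (starRingEnd ℂ) v) := by ring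
      rw [this, hwu, hwv]
      push_cast
      ring
    rw [e, fx_comb hd, fy_comb hd]
    have hρi : 1 < 1 / ρ := by rw [lt_div_iff₀ hρ0]; linarith
    have hlρ' : l * (1 / ρ) ≤ 1 := by
      rw [mul_one_div, div_le_one hρ0]
      exact hlρ
    refine ⟨by positivity, by positivity, ?_, ?_⟩
    · have h3 : ρ * y ≤ 1 / ρ * y := mul_le_mul_of_nonneg_right (by linarith) hy
      have h4 : 1 / ρ * (x + y) ≤ 1 / ρ * l := mul_le_mul_of_nonneg_left hxy (by positivity)
      nlinarith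
    · have h3 : ρ * y ≤ ρ * l := mul_le_mul_of_nonneg_left (by linarith) hρ0.le
      nlinarith
  refine ⟨l, Up u v (1 - l) 0 l, refl w 0 hw1 '' (l • Tri 0 u v), hl, copy_up hd hl0 _ _,
    ⟨_, rfl⟩, ?_, ?_, ?_⟩
  · rintro z ⟨e1, e2, e3⟩
    rw [mem_Tri hd]
    exact ⟨by nlinarith, e2, by linarith⟩
  · intro z hz
    obtain ⟨e1, e2, e3, e4⟩ := key z hz
    rw [mem_Tri hd]
    exact ⟨e1, e2, e3⟩
  · exact (sepX hd (1 - l) (fun z hz => (key z hz).2.2.2) (fun z hz => hz.1)).symm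

/-- Numbers for the tilted copy. -/
lemma tilt_numbers {C S : ℝ} (hC : 1 / 2 < C) (hS : 0 < S) (hCS : C ^ 2 + S ^ 2 = 1) :
    ∃ c s l : ℝ, c ^ 2 + s ^ 2 = 1 ∧ 0 ≤ s ∧ 0 ≤ s * C + c * S ∧ 1 / 2 < l ∧
      l * (c * S + C * s) ≤ S ∧ l * ((c * C - s * S) * S + C * (s * C + c * S)) ≤ S ∧
      s * (1 - C) ≤ c * S ∧ (s * C + c * S) * (1 - C) ≤ (c * C - s * S) * S ∧
      l * (S + c * S - s * (1 - C)) ≤ S ∧
      l * (S + (c * C - s * S) * S - (s * C + c * S) * (1 - C)) ≤ S := by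
  have hC1 : C < 1 := by nlinarith
  -- strict inequalities near 0
  have ev : ∀ F : ℝ → ℝ, Continuous F → 0 < F 0 → ∀ᶠ φ in 𝓝[>] (0 : ℝ), 0 < F φ := by
    intro F hF h0
    exact (hF.continuousAt.eventually (lt_mem_nhds h0)).filter_mono nhdsWithin_le_nhds
  have e0 := ev (fun φ => Real.sin φ * C + Real.cos φ * S) (by fun_prop) (by simpa using hS)
  have e1 := ev (fun φ => 2 * S - (Real.cos φ * S + C * Real.sin φ)) (by fun_prop)
    (by simp; linarith)
  have e2 := ev (fun φ => 2 * S - ((Real.cos φ * C - Real.sin φ * S) * S +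
    C * (Real.sin φ * C + Real.cos φ * S))) (by fun_prop) (by simp; nlinarith)
  have e3 := ev (fun φ => Real.cos φ * S - Real.sin φ * (1 - C)) (by fun_prop) (by simpa using hS)
  have e4 := ev (fun φ => (Real.cos φ * C - Real.sin φ * S) * S -
    (Real.sin φ * C + Real.cos φ * S) * (1 - C)) (by fun_prop) (by simp; nlinarith)
  have e5 := ev (fun φ => 2 * S - (S + (Real.cos φ * C - Real.sin φ * S) * S -
    (Real.sin φ * C + Real.cos φ * S) * (1 - C))) (by fun_prop) (by simp; nlinarith)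
  have e6 : ∀ᶠ φ in 𝓝[>] (0 : ℝ), 0 < Real.sin φ := by
    have : ∀ᶠ φ in 𝓝[>] (0 : ℝ), φ ∈ Ioo (0 : ℝ) Real.pi := Ioo_mem_nhdsGT Real.pi_pos
    exact this.mono fun φ h => Real.sin_pos_of_mem_Ioo h
  obtain ⟨φ, h0, h1, h2, h3, h4, h5, h6⟩ :=
    (e0.and (e1.and (e2.and (e3.and (e4.and (e5.and e6)))))).exists
  set c := Real.cos φ with hc
  set s := Real.sin φ with hs
  have hcs : c ^ 2 + s ^ 2 = 1 := Real.cos_sq_add_sin_sq φ
  have hc1 : c ≤ 1 := Real.cos_le_one φ
  -- choose l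
  have ch : ∀ M : ℝ, 0 < 2 * S - M → ∀ᶠ l in 𝓝[>] (1 / 2 : ℝ), 0 < S - l * M := by
    intro M hM
    have hcont : Continuous (fun l : ℝ => S - l * M) := by fun_prop
    exact (hcont.continuousAt.eventually (lt_mem_nhds (by linarith))).filter_mono
      nhdsWithin_le_nhds
  have h7 : 0 < 2 * S - (S + c * S - s * (1 - C)) := by
    have : 0 < s * (1 - C) := mul_pos h6 (by linarith)
    nlinarith
  obtain ⟨l, g1, g2, g3, g4, g5⟩ := ((ch _ h1).and ((ch _ h2).and ((ch _ h7).and
    ((ch _ h5).and self_mem_nhdsWithin)))).exists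
  exact ⟨c, s, l, hcs, h6.le, h0.le, g5, by linarith, by linarith, by linarith, by linarith,
    by linarith, by linarith⟩

/-- Isosceles triangles with apex angle smaller than 60 degrees, positive orientation. -/
lemma two_iso_pos (hd : det u v ≠ 0) (h1 : ‖u‖ = ‖v‖) (h2 : ‖u - v‖ < ‖u‖)
    (h3 : 0 < (v / u).im) : Two (Tri 0 u v) := by
  obtain ⟨hu, hv⟩ := ne_of_det hd
  have hu' : 0 < ‖u‖ := norm_pos_iff.mpr hu
  set k := v / u with hk
  have hvk : v = k * u := by rw [hk]; field_simp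
  have hk1 : ‖k‖ = 1 := by rw [hk, norm_div, ← h1, div_self hu'.ne']
  have hkk : k.re ^ 2 + k.im ^ 2 = 1 := by
    have := Complex.sq_norm k
    rw [hk1, Complex.normSq_apply] at this
    nlinarith
  have hkre : 1 / 2 < k.re := by
    have e : u - v = (1 - k) * u := by rw [hvk]; ring
    rw [e, norm_mul] at h2
    have h4 : ‖1 - k‖ < 1 := by
      by_contra hcon
      push Not at hcon
      nlinarith
    have h5 := Complex.sq_norm (1 - k)
    rw [Complex.normSq_apply] at h5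
    simp only [sub_re, one_re, sub_im, one_im] at h5
    have h6 : ‖1 - k‖ ^ 2 < 1 := by
      have := norm_nonneg (1 - k)
      nlinarith
    nlinarith
  obtain ⟨c, s, l, hcs, hs0, hs2, hl, q1, q2, q3, q4, q5, q6⟩ := tilt_numbers hkre h3 hkk
  set C := k.re with hC
  set S := k.im with hS
  have hl0 : 0 < l := by linarith
  -- the isometry
  set w0 : ℂ := ⟨c, -s⟩ with hw0
  set w : ℂ := -(w0 * (u / (starRingEnd ℂ) u)) with hw
  have hw0n : ‖w0‖ = 1 := by
    have := Complex.sq_norm w0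
    rw [Complex.normSq_apply] at this
    simp only [hw0] at this
    have h7 : ‖w0‖ ^ 2 = 1 := by rw [this]; nlinarith
    have h8 := norm_nonneg w0
    nlinarith
  have hw1 : ‖w‖ = 1 := by
    rw [hw, norm_neg, norm_mul, norm_div, Complex.norm_conj, hw0n, div_self hu'.ne', mul_one]
  have hcu : (starRingEnd ℂ) u ≠ 0 := by
    intro h
    apply hu
    have := congrArg (starRingEnd ℂ) h
    simpa using this
  have key : ∀ z ∈ refl w u hw1 '' (l • Tri 0 u v), 0 ≤ fx u v z ∧ 0 ≤ fy u v z ∧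
      fx u v z + fy u v z ≤ 1 ∧ l ≤ fx u v z + fy u v z := by
    rintro _ ⟨z, hz, rfl⟩
    rw [mem_smul_Tri hd hl0] at hz
    obtain ⟨hx, hy, hxy⟩ := hz
    set x := fx u v z with hxd
    set y := fy u v z with hyd
    have hzz : z = (x : ℂ) * u + (y : ℂ) * v := comb_eq hd z
    set P : ℝ := x * c + y * (c * C - s * S) with hP
    set Q : ℝ := x * s + y * (s * C + c * S) with hQ
    have e : refl w u hw1 z = ((1 - P - C / S * Q : ℝ) : ℂ) * u + ((Q / S : ℝ) : ℂ) * v := by
      have e1 : refl w u hw1 z = u * (1 - w0 * ((x : ℂ) + (y : ℂ) * (starRingEnd ℂ) k)) := by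
        rw [refl_apply, hzz, hvk, hw]
        simp only [map_add, map_mul, Complex.conj_ofReal]
        field_simp
        ring
      have e2 : (1 - w0 * ((x : ℂ) + (y : ℂ) * (starRingEnd ℂ) k)) =
          ((1 - P - C / S * Q : ℝ) : ℂ) + ((Q / S : ℝ) : ℂ) * k := by
        apply Complex.ext
        · simp only [hw0, sub_re, one_re, mul_re, add_re, ofReal_re, conj_re, ofReal_im, conj_im,
            add_im, mul_im]
          rw [← hC, ← hS, hP, hQ]
          field_simp
          ring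
        · simp only [hw0, sub_im, one_im, mul_im, add_re, ofReal_re, conj_re, ofReal_im, conj_im,
            add_im, mul_re]
          rw [← hC, ← hS, hQ]
          field_simp
          ring
      rw [e1, e2, hvk]
      ring
    rw [e, fx_comb hd, fy_comb hd]
    have hQ0 : 0 ≤ Q := by
      rw [hQ]
      exact add_nonneg (mul_nonneg hx hs0) (mul_nonneg hy hs2)
    have b1 : P * S + C * Q ≤ S := by
      have f1 := mul_le_mul_of_nonneg_left q1 hx
      have f2 := mul_le_mul_of_nonneg_left q2 hy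
      have f3 : l * (P * S + C * Q) ≤ l * S := by
        have f4 : (x + y) * S ≤ l * S := mul_le_mul_of_nonneg_right hxy h3.le
        rw [hP, hQ]
        nlinarith
      exact le_of_mul_le_mul_left f3 hl0
    have b2 : Q * (1 - C) ≤ P * S := by
      have f1 := mul_le_mul_of_nonneg_left q3 hx
      have f2 := mul_le_mul_of_nonneg_left q4 hy
      rw [hP, hQ]
      nlinarith
    have b3 : l * S ≤ S - P * S + Q * (1 - C) := by
      have f1 := mul_le_mul_of_nonneg_left q5 hx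
      have f2 := mul_le_mul_of_nonneg_left q6 hy
      -- (x+y) (l S) + l (P S - Q (1-C)) ≤ (x + y) S
      have f3 : (x + y) * (l * S) + l * (P * S - Q * (1 - C)) ≤ (x + y) * S := by
        rw [hP, hQ]
        nlinarith
      have f4 : (x + y) * (S - l * S) ≤ l * (S - l * S) := by
        apply mul_le_mul_of_nonneg_right hxy
        by_contra hcon
        push Not at hcon
        have : 0 ≤ P * S - Q * (1 - C) := by linarith
        nlinarith
      have f5 : l * (P * S - Q * (1 - C)) ≤ l * (S - l * S) := by nlinarith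
      have := le_of_mul_le_mul_left f5 hl0
      linarith
    refine ⟨?_, by positivity, ?_, ?_⟩
    · have : 1 - P - C / S * Q = (S - (P * S + C * Q)) / S := by field_simp; ring
      rw [this]
      apply div_nonneg _ h3.le
      linarith
    · have : 1 - P - C / S * Q + Q / S = 1 - (P * S - Q * (1 - C)) / S := by field_simp; ring
      rw [this]
      have : 0 ≤ (P * S - Q * (1 - C)) / S := div_nonneg (by linarith) h3.le
      linarith
    · have : 1 - P - C / S * Q + Q / S = (S - P * S + Q * (1 - C)) / S := by field_simp; ring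
      rw [this, le_div_iff₀ h3]
      exact b3
  refine ⟨l, Up u v 0 0 l, refl w u hw1 '' (l • Tri 0 u v), hl, copy_up hd hl0 _ _,
    ⟨_, rfl⟩, ?_, ?_, ?_⟩
  · rintro z ⟨e1, e2, e3⟩
    rw [mem_Tri hd]
    refine ⟨e1, e2, ?_⟩
    -- l ≤ 1
    have : l * (S + c * S - s * (1 - C)) ≤ S := q5
    nlinarith
  · intro z hz
    obtain ⟨e1, e2, e3, e4⟩ := key z hz
    rw [mem_Tri hd]
    exact ⟨e1, e2, e3⟩
  · exact sepS hd l (fun z hz => by linarith [hz.2.2]) (fun z hz => (key z hz).2.2.2)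

lemma det_swap (h : det u v ≠ 0) : det v u ≠ 0 := by
  have : det v u = -det u v := by unfold det; ring
  rw [this]
  exact neg_ne_zero.mpr h

lemma det_rot (h : det u v ≠ 0) : det (-u) (v - u) ≠ 0 := by
  have : det (-u) (v - u) = -det u v := by unfold det; simp; ring
  rw [this]
  exact neg_ne_zero.mpr h

/-- Isosceles triangles with apex angle smaller than 60 degrees. -/
lemma two_iso (hd : det u v ≠ 0) (h1 : ‖u‖ = ‖v‖) (h2 : ‖u - v‖ < ‖u‖) : Two (Tri 0 u v) := by
  obtain ⟨hu, hv⟩ := ne_of_det hd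
  have him : (v / u).im = det u v / Complex.normSq u := by
    rw [Complex.div_im, det]
    ring
  have hn : 0 < Complex.normSq u := Complex.normSq_pos.mpr hu
  have hn' : 0 < Complex.normSq v := Complex.normSq_pos.mpr hv
  rcases lt_or_gt_of_ne hd with h | h
  · apply two_swap
    apply two_iso_pos (det_swap hd) h1.symm (by rw [norm_sub_rev, ← h1]; exact h2)
    have : (u / v).im = det v u / Complex.normSq v := by
      rw [Complex.div_im, det]
      ring
    rw [this]
    have h' : det v u = -det u v := by unfold det; ring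
    rw [h']
    exact div_pos (by linarith) hn'
  · apply two_iso_pos hd h1 h2
    rw [him]
    exact div_pos h hn

/-- strict triangle inequality -/
lemma strict_tri (hd : det u v ≠ 0) : ‖u‖ < ‖v‖ + ‖u - v‖ := by
  by_contra hcon
  push Not at hcon
  have e1 := Complex.sq_norm u
  have e2 := Complex.sq_norm v
  have e3 := Complex.sq_norm (u - v)
  rw [Complex.normSq_apply] at e1 e2 e3
  simp only [sub_re, sub_im] at e3
  have n1 := norm_nonneg u
  have n2 := norm_nonneg v
  have n3 := norm_nonneg (u - v)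
  set p := ‖u‖
  set q := ‖v‖
  set r := ‖u - v‖
  set D := u.re * v.re + u.im * v.im with hD
  have h1 : r ^ 2 = p ^ 2 + q ^ 2 - 2 * D := by rw [e1, e2, e3, hD]; ring
  have h2 : r ^ 2 ≤ (p - q) ^ 2 := by nlinarith
  have h3 : p * q ≤ D := by nlinarith
  have h4 : D ^ 2 + (det u v) ^ 2 = p ^ 2 * q ^ 2 := by rw [e1, e2, hD, det]; ring
  have h5 : 0 < (det u v) ^ 2 := by positivity
  have h6 : 0 ≤ p * q := by positivity
  nlinarith

lemma two_main (hd : det u v ≠ 0) (h1 : ‖v‖ ≤ ‖u‖) (h2 : ‖u - v‖ ≤ ‖v‖)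
    (h3 : ¬ (‖u‖ = ‖v‖ ∧ ‖u - v‖ = ‖u‖)) : Two (Tri 0 u v) := by
  have hs := strict_tri hd
  rcases lt_or_eq_of_le h1 with h | h
  · exact two_ratio hd h (by linarith)
  · apply two_iso hd h.symm
    rcases lt_or_eq_of_le h2 with h' | h'
    · linarith
    · exact absurd ⟨h.symm, by linarith⟩ h3

/-- **Two copies of scale larger than `1/2` fit in every triangle that is not equilateral.** -/
theorem two_of_not_equilateral (hd : det u v ≠ 0) (h : ¬ (‖u‖ = ‖v‖ ∧ ‖u - v‖ = ‖u‖)) :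
    Two (Tri 0 u v) := by
  have r1 : ‖-u - (v - u)‖ = ‖v‖ := by
    rw [show -u - (v - u) = -v by ring, norm_neg]
  have r2 : ‖-v - (u - v)‖ = ‖u‖ := by
    rw [show -v - (u - v) = -u by ring, norm_neg]
  have r1' : ‖(v - u) - -u‖ = ‖v‖ := by
    rw [show (v - u) - -u = v by ring]
  have r2' : ‖(u - v) - -v‖ = ‖u‖ := by
    rw [show (u - v) - -v = u by ring]
  have r3 : ‖v - u‖ = ‖u - v‖ := norm_sub_rev v u
  have nu : ‖-u‖ = ‖u‖ := norm_neg u
  have nv : ‖-v‖ = ‖v‖ := norm_neg v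
  have d1 := det_rot hd
  have d2 := det_rot (det_swap hd)
  rcases le_total ‖v‖ ‖u‖ with a | a
  · rcases le_total ‖u - v‖ ‖v‖ with b | b
    · exact two_main hd a b h
    · rcases le_total ‖u - v‖ ‖u‖ with e | e
      · -- v ≤ u - v ≤ u : vertex u, sides u ≥ u - v
        apply two_rot
        apply two_main d1 (by rw [r3, nu]; exact e) (by rw [r1, r3]; exact b)
        rintro ⟨f1, f2⟩
        rw [nu, r3] at f1
        rw [r1, nu] at f2
        exact h ⟨f2.symm, f1.symm⟩
      · -- v ≤ u ≤ u - v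
        apply two_rot
        apply two_swap
        apply two_main (det_swap d1) (by rw [r3, nu]; exact e) (by rw [r1', nu]; exact a)
        rintro ⟨f1, f2⟩
        rw [nu, r3] at f1
        rw [r1', r3] at f2
        exact h ⟨by linarith, f1⟩
  · rcases le_total ‖u - v‖ ‖u‖ with b | b
    · apply two_swap
      apply two_main (det_swap hd) a (by rw [r3]; exact b)
      rintro ⟨f1, f2⟩
      rw [r3] at f2
      exact h ⟨f1.symm, by linarith⟩
    · rcases le_total ‖u - v‖ ‖v‖ with e | e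
      · apply two_swap
        apply two_rot
        apply two_main d2 (by rw [nv]; exact e) (by rw [r2]; exact b)
        rintro ⟨f1, f2⟩
        rw [nv] at f1
        rw [r2, nv] at f2
        exact h ⟨f2, by linarith⟩
      · apply two_swap
        apply two_rot
        apply two_swap
        apply two_main (det_swap d2) (by rw [nv]; exact e) (by rw [r2', nv]; exact a)
        rintro ⟨f1, f2⟩
        rw [nv] at f1
        rw [r2'] at f2
        exact h ⟨by linarith, by linarith⟩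

end Pool.Agent.H21.Tri
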