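import Pool.Agent.H21.Tri.Rows
import Pool.Agent.H21.Tri.Two
import Pool.Agent.H90.Clone.Unit

set_option autoImplicit false

/-!
# All families of total square-sum at most `1/2 + δ`
-/

namespace Pool.Agent.H21.Tri

open Pool.Agent.H90.Clone Complex Set Pointwise MeasureTheory

variable {u v : ℂ}

lemma Tri_closed (hd : det u v ≠ 0) : IsClosed (Tri 0 u v) := by
  have : Tri 0 u v = {z | 0 ≤ fx u v z} ∩ ({z | 0 ≤ fy u v z} ∩ {z | fx u v z + fy u v z ≤ 1}) := by
    ext z
    exact mem_Tri hd z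
  rw [this]
  apply IsClosed.inter
  · exact isClosed_le continuous_const (fx u v).continuous
  · apply IsClosed.inter
    · exact isClosed_le continuous_const (fy u v).continuous
    · exact isClosed_le ((fx u v).continuous.add (fy u v).continuous) continuous_const

lemma Tri_bdd (u v : ℂ) : ∀ z ∈ Tri 0 u v, ‖z‖ ≤ ‖u‖ + ‖v‖ := by
  rintro z ⟨x, y, hx, hy, hxy, rfl⟩
  rw [zero_add]
  calc ‖(x : ℂ) * u + (y : ℂ) * v‖ ≤ ‖(x : ℂ) * u‖ + ‖(y : ℂ) * v‖ := norm_add_le _ _
    _ = x * ‖u‖ + y * ‖v‖ := by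
        rw [norm_mul, norm_mul, Complex.norm_real, Complex.norm_real, Real.norm_eq_abs,
          Real.norm_eq_abs, abs_of_nonneg hx, abs_of_nonneg hy]
    _ ≤ 1 * ‖u‖ + 1 * ‖v‖ := by
        gcongr <;> linarith
    _ = _ := by ring

lemma Tri_compact (hd : det u v ≠ 0) : IsCompact (Tri 0 u v) := by
  apply Metric.isCompact_of_isClosed_isBounded (Tri_closed hd)
  apply (Metric.isBounded_closedBall (x := (0 : ℂ)) (r := ‖u‖ + ‖v‖)).subset
  intro z hz
  rw [mem_closedBall_zero_iff]
  exact Tri_bdd u v z hz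

lemma Tri_convex (o u v : ℂ) : Convex ℝ (Tri o u v) := by
  rintro _ ⟨x, y, h1, h2, h3, rfl⟩ _ ⟨x', y', h1', h2', h3', rfl⟩ a b ha hb hab
  refine ⟨a * x + b * x', a * y + b * y', by positivity, by positivity, ?_, ?_⟩
  · have e1 := mul_le_mul_of_nonneg_left h3 ha
    have e2 := mul_le_mul_of_nonneg_left h3' hb
    nlinarith
  · simp only [real_smul]
    push_cast
    have h' : ((a : ℂ) + b) = 1 := by exact_mod_cast hab
    linear_combination o * h'

lemma Tri_interior (hd : det u v ≠ 0) : (interior (Tri 0 u v)).Nonempty := by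
  have ho : IsOpen {z : ℂ | 0 < fx u v z ∧ 0 < fy u v z ∧ fx u v z + fy u v z < 1} := by
    apply IsOpen.inter
    · exact isOpen_lt continuous_const (fx u v).continuous
    · apply IsOpen.inter
      · exact isOpen_lt continuous_const (fy u v).continuous
      · exact isOpen_lt ((fx u v).continuous.add (fy u v).continuous) continuous_const
  refine ⟨((1 / 3 : ℝ) : ℂ) * u + ((1 / 3 : ℝ) : ℂ) * v, ?_⟩
  rw [mem_interior]
  refine ⟨_, ?_, ho, ?_⟩
  · rintro z ⟨h1, h2, h3⟩
    rw [mem_Tri hd]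
    exact ⟨h1.le, h2.le, h3.le⟩
  · change 0 < fx u v _ ∧ 0 < fy u v _ ∧ fx u v _ + fy u v _ < 1
    rw [fx_comb hd, fy_comb hd]
    norm_num

lemma Tri_fig (hd : det u v ≠ 0) : IsConvexFigure (Tri 0 u v) :=
  ⟨Tri_compact hd, Tri_convex 0 u v, Tri_interior hd⟩

lemma IsCopy.shrink (hd : det u v ≠ 0) {l c : ℝ} {S : Set ℂ} (h : IsCopy (Tri 0 u v) l S)
    (hc : 0 < c) (hcl : c ≤ l) : ∃ S' ⊆ S, IsCopy (Tri 0 u v) c S' := by
  obtain ⟨g, rfl⟩ := h
  refine ⟨g '' (c • Tri 0 u v), image_mono ?_, ⟨g, rfl⟩⟩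
  intro z hz
  rw [mem_smul_Tri hd hc] at hz
  rw [mem_smul_Tri hd (by linarith)]
  exact ⟨hz.1, hz.2.1, hz.2.2.trans hcl⟩

lemma IsCopy.compact (hd : det u v ≠ 0) {c : ℝ} {S : Set ℂ} (h : IsCopy (Tri 0 u v) c S) :
    IsCompact S := by
  obtain ⟨g, rfl⟩ := h
  exact ((Tri_compact hd).smul c).image g.continuous

lemma isom_affine (g : ℂ ≃ᵢ ℂ) (a b : ℝ) (hab : a + b = 1) (x y : ℂ) :
    g (a • x + b • y) = a • g x + b • g y := by
  set L : ℂ ≃ₗᵢ[ℝ] ℂ := g.toRealLinearIsometryEquiv with hL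
  have hg : ∀ z, g z = L z + g 0 := by
    intro z
    have := g.toRealLinearIsometryEquiv_apply z
    rw [hL, this]
    ring
  rw [hg, hg x, hg y, map_add, map_smul, map_smul]
  have : g 0 = (a + b) • g 0 := by rw [hab, one_smul]
  rw [smul_add, smul_add]
  nth_rewrite 1 [this]
  rw [add_smul]
  abel

lemma IsCopy.convex {T : Set ℂ} (hT : Convex ℝ T) {c : ℝ} {S : Set ℂ} (h : IsCopy T c S) :
    Convex ℝ S := by
  obtain ⟨g, rfl⟩ := h
  rintro _ ⟨x, hx, rfl⟩ _ ⟨y, hy, rfl⟩ a b ha hb hab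
  exact ⟨a • x + b • y, (hT.smul c) hx hy ha hb hab, isom_affine g a b hab x y⟩

lemma IsCopy.nonempty (hd : det u v ≠ 0) {c : ℝ} {S : Set ℂ} (h : IsCopy (Tri 0 u v) c S) :
    S.Nonempty := by
  obtain ⟨g, rfl⟩ := h
  refine ⟨g (c • 0), ⟨_, ⟨0, ?_, rfl⟩, rfl⟩⟩
  rw [mem_Tri hd]
  simp

/-- Two large copies and a corner. -/
lemma three_regions (hd : det u v ≠ 0) (h : Two (Tri 0 u v)) :
    ∃ (l κ p q : ℝ) (A B : Set ℂ), 1 / 2 < l ∧ 0 < κ ∧ IsCopy (Tri 0 u v) l A ∧
      IsCopy (Tri 0 u v) l B ∧ A ⊆ Tri 0 u v ∧ B ⊆ Tri 0 u v ∧ Up u v p q κ ⊆ Tri 0 u v ∧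
      SepSets A B ∧ SepSets A (Up u v p q κ) ∧ SepSets B (Up u v p q κ) := by
  obtain ⟨l0, A0, B0, hl0, hA0, hB0, hA0T, hB0T, hs⟩ := h
  set l := min l0 (3 / 5) with hl
  have hl1 : 1 / 2 < l := lt_min hl0 (by norm_num)
  have hl2 : l ≤ 3 / 5 := min_le_right _ _
  have hl3 : l ≤ l0 := min_le_left _ _
  obtain ⟨A, hAA, hA⟩ := hA0.shrink hd (c := l) (by linarith) hl3
  obtain ⟨B, hBB, hB⟩ := hB0.shrink hd (c := l) (by linarith) hl3
  -- areas
  have hT := Tri_fig hd
  have hTpos := area_pos hT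
  have volS : ∀ S, IsCopy (Tri 0 u v) l S → volume S = ENNReal.ofReal (l ^ 2 * area (Tri 0 u v)) := by
    intro S hS
    have hcS := hS.compact hd
    obtain ⟨g, rfl⟩ := hS
    rw [← area_clone g, area, ENNReal.ofReal_toReal hcS.measure_lt_top.ne]
  have volT : volume (interior (Tri 0 u v)) = ENNReal.ofReal (area (Tri 0 u v)) := by
    have h1 : volume (frontier (Tri 0 u v)) = 0 := (Tri_convex 0 u v).addHaar_frontier volume
    have h2 : volume (Tri 0 u v) = volume (interior (Tri 0 u v)) := by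
      have := measure_congr (interior_ae_eq_of_null_frontier h1)
      exact this.symm
    rw [← h2, area, ENNReal.ofReal_toReal hT.1.measure_lt_top.ne]
  have hne : (interior (Tri 0 u v) \ (A ∪ B)).Nonempty := by
    by_contra hcon
    rw [not_nonempty_iff_eq_empty, Set.sdiff_eq_empty] at hcon
    have h1 := measure_mono (μ := volume) hcon
    have h2 := h1.trans (measure_union_le A B)
    rw [volT, volS A hA, volS B hB, ← ENNReal.ofReal_add (by positivity) (by positivity)] at h2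
    rw [ENNReal.ofReal_le_ofReal_iff (by positivity)] at h2
    nlinarith [mul_pos hTpos (sub_pos.mpr hl1)]
  obtain ⟨z, hz⟩ := hne
  have hopen : IsOpen (interior (Tri 0 u v) \ (A ∪ B)) :=
    isOpen_interior.sdiff ((hA.compact hd).isClosed.union (hB.compact hd).isClosed)
  obtain ⟨ε, hε, hball⟩ := Metric.isOpen_iff.mp hopen z hz
  set κ := ε / (2 * (‖u‖ + ‖v‖)) with hκ
  obtain ⟨hu, hv⟩ := ne_of_det hd
  have huv : 0 < ‖u‖ + ‖v‖ := add_pos (norm_pos_iff.mpr hu) (norm_pos_iff.mpr hv)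
  have hκ0 : 0 < κ := by positivity
  have hUp : Up u v (fx u v z) (fy u v z) κ ⊆ Metric.ball z ε := by
    rintro w ⟨h1, h2, h3⟩
    rw [Metric.mem_ball, dist_eq_norm]
    have h4 : w - z ∈ κ • Tri 0 u v := by
      rw [mem_smul_Tri hd hκ0, map_sub, map_sub]
      exact ⟨by linarith, by linarith, by linarith⟩
    obtain ⟨t, ht, hte⟩ := h4
    have h5 := Tri_bdd u v t ht
    rw [← hte]
    simp only [real_smul]
    rw [norm_mul, Complex.norm_real, Real.norm_eq_abs, abs_of_pos hκ0]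
    calc κ * ‖t‖ ≤ κ * (‖u‖ + ‖v‖) := mul_le_mul_of_nonneg_left h5 hκ0.le
      _ = ε / 2 := by rw [hκ]; field_simp
      _ < ε := by linarith
  have sepb : ∀ S, IsCopy (Tri 0 u v) l S → S ⊆ A ∪ B →
      SepSets S (Up u v (fx u v z) (fy u v z) κ) := by
    intro S hS hSAB
    have hdisj : Disjoint (Metric.ball z ε) S := by
      rw [Set.disjoint_left]
      intro w hw hwS
      exact (hball hw).2 (hSAB hwS)
    obtain ⟨f, t, h1, h2⟩ := geometric_hahn_banach_open (convex_ball z ε) Metric.isOpen_ball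
      (hS.convex (Tri_convex 0 u v)) hdisj
    refine SepSets.symm ⟨f, t, ?_, fun w hw => (h1 w (hUp hw)).le, h2⟩
    rintro rfl
    obtain ⟨s, hs⟩ := hS.nonempty hd
    have := h1 z (Metric.mem_ball_self hε)
    have := h2 s hs
    simp at *
    linarith
  refine ⟨l, κ, fx u v z, fy u v z, A, B, hl1, hκ0, hA, hB, hAA.trans hA0T, hBB.trans hB0T, ?_,
    hs.mono hAA hBB, sepb A hA subset_union_left, sepb B hB subset_union_right⟩
  intro w hw
  exact interior_subset (hball (hUp hw)).1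

/-- The packing theorem with a gain. -/
theorem pack_gain (hd : det u v ≠ 0) (h : Two (Tri 0 u v)) : ∃ δ : ℝ, 0 < δ ∧
    ∀ L : List ℝ, L.Pairwise (fun a b => b ≤ a) → (∀ c ∈ L, 0 < c) → sqs L ≤ 1 / 2 + δ →
      Pack (Tri 0 u v) (Tri 0 u v) L := by
  obtain ⟨l, κ, p, q, A, B, hl, hκ, hA, hB, hAT, hBT, hCT, hAB, hAC, hBC⟩ := three_regions hd h
  set e := min (l - 1 / 2) (min (κ ^ 2 / 4) (1 / 2)) with he
  have e0 : 0 < e := lt_min (by linarith) (lt_min (by positivity) (by norm_num))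
  have e1 : e ≤ l - 1 / 2 := min_le_left _ _
  have e2 : e ≤ κ ^ 2 / 4 := (min_le_right _ _).trans (min_le_left _ _)
  have e3 : e ≤ 1 / 2 := (min_le_right _ _).trans (min_le_right _ _)
  refine ⟨2 * e ^ 2, by positivity, ?_⟩
  intro L hs hpos hsum
  cases L with
  | nil => exact Pack.nil _
  | cons y1 L =>
    have hy1 : 0 < y1 := hpos y1 (by simp)
    have hL0 := sqs_nonneg L
    have hy1' : y1 ≤ 1 := by
      rw [sqs_cons] at hsum
      nlinarith
    by_cases hA1 : sqs (y1 :: L) ≤ y1 ^ 2 + (1 - y1) ^ 2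
    · exact packA hd y1 L hs hpos hA1 hy1'
    · push Not at hA1
      have hdev : (y1 - 1 / 2) ^ 2 < e ^ 2 := by nlinarith
      have hdev' := abs_lt_of_sq_lt_sq hdev e0.le
      rw [abs_lt] at hdev'
      cases L with
      | nil =>
        exfalso
        rw [sqs_cons, sqs_nil] at hA1
        nlinarith
      | cons y2 L =>
        have hy2 : 0 < y2 := hpos y2 (by simp)
        by_cases hB1 : y1 + y2 ≤ 1 ∧ sqs (y1 :: y2 :: L) ≤ y2 ^ 2 + (1 - y2) ^ 2
        · exact packB hd y1 y2 L hs hpos hB1.2 hB1.1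
        · have hL1 := sqs_nonneg L
          rw [List.pairwise_cons, List.pairwise_cons] at hs
          obtain ⟨hs1, hs2, hs3⟩ := hs
          have hy21 : y2 ≤ y1 := hs1 y2 (by simp)
          have hrest : sqs L ≤ κ ^ 2 / 2 := by
            rw [sqs_cons, sqs_cons] at hsum
            by_cases h12 : y1 + y2 ≤ 1
            · have hB2 : y2 ^ 2 + (1 - y2) ^ 2 < sqs (y1 :: y2 :: L) := by
                by_contra hcon
                push Not at hcon
                exact hB1 ⟨h12, hcon⟩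
              rw [sqs_cons, sqs_cons] at hB2
              have hdev2 : (y2 - 1 / 2) ^ 2 < e ^ 2 := by nlinarith
              have hdev2' := abs_lt_of_sq_lt_sq hdev2 e0.le
              rw [abs_lt] at hdev2'
              nlinarith
            · push Not at h12
              nlinarith [sq_nonneg (y1 - y2)]
          obtain ⟨A', hA'A, hA'⟩ := hA.shrink hd hy1 (by linarith)
          obtain ⟨B', hB'B, hB'⟩ := hB.shrink hd hy2 (by linarith)
          have hC := packSmall hd L hs3 (fun c hc => hpos c (by simp [hc])) hκ hrest p q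
          have hBC' : Pack (Tri 0 u v) (B' ∪ Up u v p q κ) (y2 :: L) :=
            Pack.cons hB' hC (hBC.mono hB'B Subset.rfl) subset_union_left subset_union_right
          obtain ⟨M, m1, m2, m3⟩ := hBC'
          -- direct assembly
          obtain ⟨D, d1, d2, d3⟩ := hC
          refine ⟨A' :: B' :: D, List.Forall₂.cons hA' (List.Forall₂.cons hB' d1), ?_, ?_⟩
          · intro S hS
            rw [List.mem_cons, List.mem_cons] at hS
            rcases hS with rfl | rfl | hS
            · exact hA'A.trans hAT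
            · exact hB'B.trans hBT
            · exact (d2 S hS).trans hCT
          · rw [List.pairwise_cons, List.pairwise_cons]
            refine ⟨?_, ?_, d3⟩
            · intro S hS
              rw [List.mem_cons] at hS
              rcases hS with rfl | hS
              · exact hAB.mono hA'A hB'B
              · exact hAC.mono hA'A (d2 S hS)
            · intro S hS
              exact hBC.mono hB'B (d2 S hS)

/-- The packing theorem for every triangle. -/
theorem pack_half (hd : det u v ≠ 0) (L : List ℝ) (hs : L.Pairwise (fun a b => b ≤ a))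
    (hpos : ∀ c ∈ L, 0 < c) (hsum : sqs L ≤ 1 / 2) : Pack (Tri 0 u v) (Tri 0 u v) L := by
  cases L with
  | nil => exact Pack.nil _
  | cons y L =>
    have hy : 0 < y := hpos y (by simp)
    have hL0 := sqs_nonneg L
    rw [sqs_cons] at hsum
    apply packA hd y L hs hpos
    · rw [sqs_cons]
      nlinarith [sq_nonneg (2 * y - 1)]
    · nlinarith

end Pool.Agent.H21.Tri
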