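import Pool.Agent.H21.Tri.Basic

set_option autoImplicit false

/-!
# The row algorithm for triangles
-/

namespace Pool.Agent.H21.Tri

open Pool.Agent.H90.Clone Complex Set Pointwise

variable {u v : ℂ}

/-- sum of squares -/
noncomputable def sqs (L : List ℝ) : ℝ := (L.map (fun x => x ^ 2)).sum

lemma sqs_nil : sqs [] = 0 := rfl

lemma sqs_cons (x : ℝ) (L : List ℝ) : sqs (x :: L) = x ^ 2 + sqs L := by simp [sqs]

lemma sqs_append (L M : List ℝ) : sqs (L ++ M) = sqs L + sqs M := by simp [sqs]

lemma sqs_nonneg (L : List ℝ) : 0 ≤ sqs L := by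
  apply List.sum_nonneg
  intro a ha
  obtain ⟨j, _, rfl⟩ := List.mem_map.mp ha
  positivity

/-- the region to the right of an upright triangle in a row -/
def Reg (u v : ℂ) (x s b H S : ℝ) : Set ℂ :=
  {z | x ≤ fx u v z ∧ s ≤ fx u v z + fy u v z ∧ b ≤ fy u v z ∧ fy u v z ≤ b + H ∧
    fx u v z + fy u v z ≤ S}

/-- the trapezoid -/
def Trap (u v : ℂ) (a b l t : ℝ) : Set ℂ :=
  {z | a ≤ fx u v z ∧ b ≤ fy u v z ∧ fy u v z ≤ b + t ∧ fx u v z + fy u v z ≤ a + b + l}

/-- One row, after an upright triangle of size `h` with left corner at `(x, b)`. -/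
lemma row (hd : det u v ≠ 0) : ∀ (k : ℕ) (L : List ℝ), L.length ≤ k → L.Pairwise (fun a b => b ≤ a) →
    (∀ c ∈ L, 0 < c) → ∀ (x h b H S : ℝ), (∀ c ∈ L, c ≤ h) → h ≤ H →
    ∃ r m : List ℝ, L = r ++ m ∧ Pack (Tri 0 u v) (Reg u v x (x + b + h) b H S) r ∧
      (m = [] ∨ ∃ y m', m = y :: m' ∧ 2 * y * (S - b - x - h - y) ≤ sqs r) := by
  intro k
  induction k using Nat.strong_induction_on with
  | _ k ih =>
  intro L hlen hs hpos x h b H S hh hH
  cases L with
  | nil => exact ⟨[], [], rfl, Pack.nil _, Or.inl rfl⟩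
  | cons z1 L =>
    have hz1 : 0 < z1 := hpos z1 (by simp)
    have hz1h : z1 ≤ h := hh z1 (by simp)
    by_cases hfit : x + h + z1 + b ≤ S
    swap
    · refine ⟨[], z1 :: L, rfl, Pack.nil _, Or.inr ⟨z1, L, rfl, ?_⟩⟩
      rw [sqs_nil]
      push Not at hfit
      nlinarith
    · -- the inverted triangle
      have hc1 := copy_down hd hz1 (x + h - z1) b
      have hb1 : ∀ z ∈ Down u v (x + h - z1) b z1, x ≤ fx u v z ∧ fx u v z ≤ x + h ∧
          x + b + h ≤ fx u v z + fy u v z ∧ b ≤ fy u v z ∧ fy u v z ≤ b + H ∧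
          fx u v z + fy u v z ≤ S := by
        rintro z ⟨h1, h2, h3⟩
        refine ⟨by linarith, by linarith, by linarith, by linarith, by linarith, by linarith⟩
      cases L with
      | nil =>
        refine ⟨[z1], [], rfl, Pack.single hc1 ?_, Or.inl rfl⟩
        intro z hz
        obtain ⟨e1, e2, e3, e4, e5, e6⟩ := hb1 z hz
        exact ⟨e1, e3, e4, e5, e6⟩
      | cons z2 L =>
        have hz2 : 0 < z2 := hpos z2 (by simp)
        rw [List.pairwise_cons, List.pairwise_cons] at hs
        obtain ⟨hs1, hs2, hs3⟩ := hs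
        have hz21 : z2 ≤ z1 := hs1 z2 (by simp)
        obtain ⟨r, m, hrm, hp, hm⟩ := ih (k - 1) (by simp at hlen; omega) L (by simp at hlen; omega) hs3
          (fun c hc => hpos c (by simp [hc])) (x + h) z2 b H S hs2 (by linarith)
        have hc2 := copy_up hd hz2 (x + h) b
        have hb2 : ∀ z ∈ Up u v (x + h) b z2, x + h ≤ fx u v z ∧
            fx u v z + fy u v z ≤ x + h + b + z2 ∧ b ≤ fy u v z ∧ fy u v z ≤ b + z2 := by
          rintro z ⟨h1, h2, h3⟩
          exact ⟨by linarith, by linarith, by linarith, by linarith⟩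
        refine ⟨z1 :: z2 :: r, m, by rw [hrm]; rfl, ?_, ?_⟩
        · have hR : Pack (Tri 0 u v) (Reg u v (x + h) (x + b + h) b H S) (z2 :: r) := by
            apply Pack.cons hc2 hp
            · exact sepS hd (x + h + b + z2) (fun z hz => (hb2 z hz).2.1) (fun z hz => hz.2.1)
            · intro z hz
              obtain ⟨e1, e2, e3, e4⟩ := hb2 z hz
              exact ⟨e1, by linarith, e3, by linarith, by linarith⟩
            · rintro z ⟨e1, e2, e3, e4, e5⟩
              exact ⟨e1, by linarith, e3, e4, e5⟩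
          apply Pack.cons hc1 hR
          · exact sepX hd (x + h) (fun z hz => (hb1 z hz).2.1) (fun z hz => hz.1)
          · intro z hz
            obtain ⟨e1, e2, e3, e4, e5, e6⟩ := hb1 z hz
            exact ⟨e1, e3, e4, e5, e6⟩
          · rintro z ⟨e1, e2, e3, e4, e5⟩
            exact ⟨by linarith, e2, e3, e4, e5⟩
        · rcases hm with hm | ⟨y, m', hm, hy⟩
          · exact Or.inl hm
          · refine Or.inr ⟨y, m', hm, ?_⟩
            have hyL : y ∈ L := by rw [hrm, hm]; simp
            have hy0 : 0 < y := hpos y (by simp [hyL])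
            have hy2 : y ≤ z2 := hs2 y hyL
            rw [sqs_cons, sqs_cons]
            nlinarith [mul_le_mul_of_nonneg_right hy2 hz2.le, sq_nonneg (z1 - z2)]

/-- The rows. -/
theorem rows (hd : det u v ≠ 0) : ∀ (k : ℕ) (L : List ℝ), L.length ≤ k →
    L.Pairwise (fun a b => b ≤ a) → (∀ c ∈ L, 0 < c) → ∀ (a b l t : ℝ), t ≤ l →
    (∀ y L', L = y :: L' → y ≤ t ∧ sqs L ≤ y ^ 2 + (l - y) ^ 2 - (l - t) ^ 2) →
    Pack (Tri 0 u v) (Trap u v a b l t) L := by
  intro k
  induction k with
  | zero =>
    intro L hlen _ _ a b l t _ _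
    rw [List.length_eq_zero_iff.mp (Nat.le_zero.mp hlen)]
    exact Pack.nil _
  | succ k ih =>
    intro L hlen hs hpos a b l t htl hL
    cases L with
    | nil => exact Pack.nil _
    | cons h L =>
      obtain ⟨hht, hsum⟩ := hL h L rfl
      have hh : 0 < h := hpos h (by simp)
      rw [List.pairwise_cons] at hs
      obtain ⟨hs1, hs2⟩ := hs
      obtain ⟨r, m, hrm, hp, hm⟩ := row hd L.length L le_rfl hs2 (fun c hc => hpos c (by simp [hc]))
        a h b h (a + b + l) hs1 le_rfl
      have hc := copy_up hd hh a b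
      -- the first row
      have hrow : Pack (Tri 0 u v) {z | a ≤ fx u v z ∧ b ≤ fy u v z ∧ fy u v z ≤ b + h ∧
          fx u v z + fy u v z ≤ a + b + l} (h :: r) := by
        apply Pack.cons hc hp
        · exact sepS hd (a + b + h) (fun z hz => hz.2.2) (fun z hz => by linarith [hz.2.1])
        · rintro z ⟨e1, e2, e3⟩
          exact ⟨e1, e2, by linarith, by linarith⟩
        · rintro z ⟨e1, e2, e3, e4, e5⟩
          exact ⟨e1, e3, e4, e5⟩
      rcases hm with hm | ⟨y, m', hm, hy⟩
      · subst hm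
        rw [List.append_nil] at hrm
        subst hrm
        apply hrow.mono
        rintro z ⟨e1, e2, e3, e4⟩
        exact ⟨e1, e2, by linarith, e4⟩
      · have hyL : y ∈ L := by rw [hrm, hm]; simp
        have hy0 : 0 < y := hpos y (by simp [hyL])
        rw [sqs_cons, hrm, sqs_append] at hsum
        have hr0 := sqs_nonneg r
        have hm0 := sqs_nonneg m'
        have hmy : sqs m = y ^ 2 + sqs m' := by rw [hm, sqs_cons]
        have hyt : y ≤ t - h := by
          by_contra hcon
          push Not at hcon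
          by_cases hyl : y ≤ l - h
          · nlinarith
          · push Not at hyl
            nlinarith
        have hpm : Pack (Tri 0 u v) (Trap u v a (b + h) (l - h) (t - h)) m := by
          apply ih m
          · rw [hrm] at hlen
            simp at hlen
            omega
          · rw [hrm, List.pairwise_append] at hs2
            exact hs2.2.1
          · intro c hc
            exact hpos c (by rw [hrm]; simp [hc])
          · linarith
          · intro y' L' he
            have : y' = y := by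
              rw [hm] at he
              exact (List.cons.inj he).1.symm
            subst this
            exact ⟨hyt, by nlinarith⟩
        rw [hrm, ← List.cons_append]
        apply Pack.append hrow hpm
        · exact sepY hd (b + h) (fun z hz => hz.2.2.1) (fun z hz => hz.2.1)
        · rintro z ⟨e1, e2, e3, e4⟩
          exact ⟨e1, e2, by linarith, e4⟩
        · rintro z ⟨e1, e2, e3, e4⟩
          exact ⟨e1, by linarith, by linarith, by linarith⟩

lemma Trap_eq (h : det u v ≠ 0) : Trap u v 0 0 1 1 = Tri 0 u v := by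
  ext z
  rw [mem_Tri h]
  constructor
  · rintro ⟨h1, h2, h3, h4⟩
    exact ⟨h1, h2, by linarith⟩
  · rintro ⟨h1, h2, h3⟩
    exact ⟨h1, h2, by linarith, by linarith⟩

/-- first arrangement -/
theorem packA (hd : det u v ≠ 0) (y : ℝ) (L : List ℝ) (hs : (y :: L).Pairwise (fun a b => b ≤ a))
    (hpos : ∀ c ∈ y :: L, 0 < c) (h : sqs (y :: L) ≤ y ^ 2 + (1 - y) ^ 2) (hy : y ≤ 1) :
    Pack (Tri 0 u v) (Tri 0 u v) (y :: L) := by
  have := rows hd (y :: L).length (y :: L) le_rfl hs hpos 0 0 1 1 le_rfl (by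
    intro y' L' he
    have : y' = y := (List.cons.inj he).1.symm
    subst this
    exact ⟨hy, by simpa using h⟩)
  rwa [Trap_eq hd] at this

/-- second arrangement: the first triangle in a corner, the others in rows from the other side -/
theorem packB (hd : det u v ≠ 0) (y1 y2 : ℝ) (L : List ℝ)
    (hs : (y1 :: y2 :: L).Pairwise (fun a b => b ≤ a))
    (hpos : ∀ c ∈ y1 :: y2 :: L, 0 < c) (h : sqs (y1 :: y2 :: L) ≤ y2 ^ 2 + (1 - y2) ^ 2)
    (hy : y1 + y2 ≤ 1) :
    Pack (Tri 0 u v) (Tri 0 u v) (y1 :: y2 :: L) := by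
  have hy1 : 0 < y1 := hpos y1 (by simp)
  have hy2 : 0 < y2 := hpos y2 (by simp)
  rw [List.pairwise_cons] at hs
  have hr := rows hd (y2 :: L).length (y2 :: L) le_rfl hs.2 (fun c hc => hpos c (by
    rw [List.mem_cons]; exact Or.inr hc)) 0 0 1 (1 - y1)
    (by linarith) (by
    intro y' L' he
    have : y' = y2 := (List.cons.inj he).1.symm
    subst this
    rw [sqs_cons] at h
    exact ⟨by linarith, by linarith⟩)
  apply Pack.cons (copy_up hd hy1 0 (1 - y1)) hr
  · exact (sepY hd (1 - y1) (fun z hz => by linarith [hz.2.2.1]) (fun z hz => hz.2.1)).symm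
  · rintro z ⟨e1, e2, e3⟩
    rw [mem_Tri hd]
    exact ⟨e1, by linarith, by linarith⟩
  · rintro z ⟨e1, e2, e3, e4⟩
    rw [mem_Tri hd]
    exact ⟨e1, e2, by linarith⟩

/-- small total area in a small corner of size `κ` at `(p, q)` -/
theorem packSmall (hd : det u v ≠ 0) (L : List ℝ) (hs : L.Pairwise (fun a b => b ≤ a))
    (hpos : ∀ c ∈ L, 0 < c) {κ : ℝ} (hκ : 0 < κ) (h : sqs L ≤ κ ^ 2 / 2) (p q : ℝ) :
    Pack (Tri 0 u v) (Up u v p q κ) L := by
  have := rows hd L.length L le_rfl hs hpos p q κ κ le_rfl (by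
    intro y L' he
    subst he
    have hy : 0 < y := hpos y (by simp)
    have h0 := sqs_nonneg L'
    rw [sqs_cons] at h
    have hyk : y ≤ κ := by nlinarith
    refine ⟨hyk, ?_⟩
    rw [sqs_cons]
    nlinarith [sq_nonneg (2 * y - κ)])
  apply this.mono
  rintro z ⟨e1, e2, e3, e4⟩
  exact ⟨e1, e2, e4⟩

end Pool.Agent.H21.Tri
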